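import Pool.Agent.L5helper94.TA.Zero
open MeasureTheory Set Filter Topology FourierTransform
open scoped ENNReal Real Convolution ComplexConjugate

namespace Pool.Agent.L5helper94.TA

/-- Bohr almost periodicity, with frequencies. -/
def BAP (u : ℝ → ℂ) : Prop :=
  ∀ ε : ℝ, 0 < ε → ∃ F : Finset ℝ, ∃ η : ℝ, 0 < η ∧ ∀ τ : ℝ,
    (∀ ξ ∈ F, ‖Complex.exp (2 * π * ξ * τ * Complex.I) - 1‖ ≤ η) → ∀ x, ‖u (x + τ) - u x‖ ≤ ε

theorem BAP.add {u v : ℝ → ℂ} (hu : BAP u) (hv : BAP v) : BAP (fun x => u x + v x) := by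
  classical
  intro ε hε
  obtain ⟨F, η, hη, h⟩ := hu (ε / 2) (by positivity)
  obtain ⟨F', η', hη', h'⟩ := hv (ε / 2) (by positivity)
  refine ⟨F ∪ F', min η η', lt_min hη hη', fun τ hτ x => ?_⟩
  have h1 := h τ (fun ξ hξ => (hτ ξ (Finset.mem_union_left _ hξ)).trans (min_le_left _ _)) x
  have h2 := h' τ (fun ξ hξ => (hτ ξ (Finset.mem_union_right _ hξ)).trans (min_le_right _ _)) x
  have e : u (x + τ) + v (x + τ) - (u x + v x) = (u (x + τ) - u x) + (v (x + τ) - v x) := by ring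
  show ‖u (x + τ) + v (x + τ) - (u x + v x)‖ ≤ ε
  rw [e]
  refine (norm_add_le _ _).trans ?_
  linarith

theorem BAP.const_mul {u : ℝ → ℂ} (hu : BAP u) (c : ℂ) : BAP (fun x => c * u x) := by
  intro ε hε
  obtain ⟨F, η, hη, h⟩ := hu (ε / (‖c‖ + 1)) (by positivity)
  refine ⟨F, η, hη, fun τ hτ x => ?_⟩
  rw [← mul_sub, norm_mul]
  calc ‖c‖ * ‖u (x + τ) - u x‖ ≤ ‖c‖ * (ε / (‖c‖ + 1)) :=
        mul_le_mul_of_nonneg_left (h τ hτ x) (norm_nonneg _)
    _ ≤ ε := by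
        rw [mul_div_assoc', div_le_iff₀ (by positivity)]
        nlinarith [norm_nonneg c]

theorem BAP.of_approx {u : ℝ → ℂ} (h : ∀ ε : ℝ, 0 < ε → ∃ v, BAP v ∧ ∀ x, ‖u x - v x‖ ≤ ε) :
    BAP u := by
  intro ε hε
  obtain ⟨v, hv, hv'⟩ := h (ε / 3) (by positivity)
  obtain ⟨F, η, hη, h⟩ := hv (ε / 3) (by positivity)
  refine ⟨F, η, hη, fun τ hτ x => ?_⟩
  have e : u (x + τ) - u x = (u (x + τ) - v (x + τ)) + (v (x + τ) - v x) - (u x - v x) := by ring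
  rw [e]
  refine (norm_sub_le _ _).trans ?_
  refine (add_le_add_left (norm_add_le _ _) _).trans ?_
  have h1 := hv' (x + τ)
  have h2 := hv' x
  have h3 := h τ hτ x
  linarith

theorem norm_exp_I (a : ℝ) : ‖Complex.exp ((a : ℂ) * Complex.I)‖ = 1 := Complex.norm_exp_ofReal_mul_I a

/-- simultaneous approximation -/
theorem dirichlet (F : Finset ℝ) (η M : ℝ) (hη : 0 < η) :
    ∃ τ : ℝ, M ≤ τ ∧ ∀ ξ ∈ F, ‖Complex.exp (2 * π * ξ * τ * Complex.I) - 1‖ ≤ η := by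
  set M' := max M 1 with hM'
  have hM1 : 1 ≤ M' := le_max_right _ _
  let v : ℕ → (F → ℂ) := fun n ξ => Complex.exp (((2 * π * (ξ : ℝ) * (n * M') : ℝ) : ℂ) * Complex.I)
  have hb : ∀ n, v n ∈ Metric.closedBall (0 : F → ℂ) 1 := by
    intro n
    rw [mem_closedBall_zero_iff, pi_norm_le_iff_of_nonneg zero_le_one]
    intro ξ
    exact (norm_exp_I _).le
  obtain ⟨a, -, φ, hφ, hlim⟩ := tendsto_subseq_of_bounded Metric.isBounded_closedBall hb
  have hc : CauchySeq (v ∘ φ) := hlim.cauchySeq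
  obtain ⟨N, hN⟩ := Metric.cauchySeq_iff'.1 hc η hη
  have h1 := hN (N + 1) (Nat.le_succ N)
  have hlt : φ N < φ (N + 1) := hφ (Nat.lt_succ_self N)
  refine ⟨((φ (N + 1) : ℝ) - φ N) * M', ?_, fun ξ hξ => ?_⟩
  · have : (1:ℝ) ≤ (φ (N + 1) : ℝ) - φ N := by
      have : ((φ N + 1 : ℕ) : ℝ) ≤ (φ (N + 1) : ℝ) := by exact_mod_cast hlt
      push_cast at this
      linarith
    calc M ≤ M' := le_max_left _ _
      _ = 1 * M' := (one_mul _).symm
      _ ≤ _ := mul_le_mul_of_nonneg_right this (by linarith)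
  · have h2 : ‖(v (φ (N + 1)) - v (φ N)) ⟨ξ, hξ⟩‖ ≤ η := by
      refine (norm_le_pi_norm (v (φ (N + 1)) - v (φ N)) ⟨ξ, hξ⟩).trans ?_
      rw [← dist_eq_norm]
      exact h1.le
    have e : (v (φ (N + 1)) - v (φ N)) ⟨ξ, hξ⟩ = Complex.exp (((2 * π * ξ * (φ N * M') : ℝ) : ℂ) * Complex.I)
        * (Complex.exp (2 * π * ξ * ((((φ (N + 1) : ℝ) - φ N) * M' : ℝ) : ℂ) * Complex.I) - 1) := by
      simp only [Pi.sub_apply, v]
      rw [mul_sub, mul_one, ← Complex.exp_add]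
      congr 2
      push_cast
      ring
    rw [e, norm_mul, norm_exp_I, one_mul] at h2
    exact h2

theorem BAP.exists_period {u : ℝ → ℂ} (hu : BAP u) (ε M : ℝ) (hε : 0 < ε) :
    ∃ τ : ℝ, M ≤ τ ∧ ∀ x, ‖u (x + τ) - u x‖ ≤ ε := by
  obtain ⟨F, η, hη, h⟩ := hu ε hε
  obtain ⟨τ, hτ, hτ'⟩ := dirichlet F η M hη
  exact ⟨τ, hτ, h τ hτ'⟩

theorem exp_lip (τ a x y : ℝ) :
    ‖(Complex.exp (2 * π * x * τ * Complex.I) - Complex.exp (2 * π * a * τ * Complex.I))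
      - (Complex.exp (2 * π * y * τ * Complex.I) - Complex.exp (2 * π * a * τ * Complex.I))‖
      ≤ 2 * π * |τ| * |x - y| := by
  have e : (Complex.exp (2 * π * x * τ * Complex.I) - Complex.exp (2 * π * a * τ * Complex.I))
      - (Complex.exp (2 * π * y * τ * Complex.I) - Complex.exp (2 * π * a * τ * Complex.I))
      = Complex.exp (((2 * π * y * τ : ℝ) : ℂ) * Complex.I) *
        (Complex.exp (Complex.I * ((2 * π * (x - y) * τ : ℝ) : ℂ)) - 1) := by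
    rw [mul_sub, mul_one, ← Complex.exp_add, sub_sub_sub_cancel_right]
    congr 2
    · push_cast; ring
    · push_cast; ring
  rw [e, norm_mul, norm_exp_I, one_mul]
  refine (Real.norm_exp_I_mul_ofReal_sub_one_le).trans (le_of_eq ?_)
  rw [Real.norm_eq_abs, abs_mul, abs_mul, abs_of_pos (by positivity : (0:ℝ) < 2 * π)]
  ring

theorem term_bound (a e v : ℂ) (E V : ℝ) (he : ‖e‖ ≤ E) (hv : ‖v‖ ≤ V) :
    ‖a * (e * v)‖ ≤ (‖a‖ * V) * E := by
  rw [norm_mul, norm_mul]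
  have h3 : ‖e‖ * ‖v‖ ≤ E * V := mul_le_mul he hv (norm_nonneg _) ((norm_nonneg _).trans he)
  calc ‖a‖ * (‖e‖ * ‖v‖) ≤ ‖a‖ * (E * V) := mul_le_mul_of_nonneg_left h3 (norm_nonneg _)
    _ = (‖a‖ * V) * E := by ring

section
variable {h : ℝ → ℂ} {D : ℝ} (hm : Measurable h) (hD : ∀ x, ‖h x‖ ≤ D)
  {f : ℝ → ℂ} (hf : Integrable f) {c : ℂ} (hc : ∀ x, ∫ t, f t * h (x - t) = c)
  {L : ℝ} (hL : 0 ≤ L) (hF : ∀ x y, ‖𝓕 f x - 𝓕 f y‖ ≤ L * |x - y|)
include hm hD hf hc hL hF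

/-- a bump at an isolated zero gives an exponential -/
theorem AA_bump (h0 : 𝓕 f 0 ≠ 0) (ξ ρ : ℝ) (hρ : 0 < ρ) (hρ0 : ρ ≤ |ξ|)
    (hiso : ∀ ζ, 𝓕 f ζ = 0 → ζ ≠ ξ → ρ ≤ |ζ - ξ|) (τ x : ℝ) :
    AA h (fun x => ((tent ((x - ξ) / ρ) : ℝ) : ℂ)) (x + τ)
      = Complex.exp (2 * π * ξ * τ * Complex.I) * AA h (fun x => ((tent ((x - ξ) / ρ) : ℝ) : ℂ)) x := by
  set b : ℝ → ℂ := fun x => ((tent ((x - ξ) / ρ) : ℝ) : ℂ) with hb
  have hbL : LCp b := ⟨1 / ρ, |ξ| + ρ, by positivity, by positivity, lc_tent ξ ρ hρ⟩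
  let g : ℝ → ℂ := fun x => Complex.exp (2 * π * x * τ * Complex.I) - Complex.exp (2 * π * ξ * τ * Complex.I)
  have hgM : ∀ x, ‖g x‖ ≤ 2 := by
    intro x
    refine (norm_sub_le _ _).trans ?_
    have e1 : ∀ y : ℝ, ‖Complex.exp (2 * π * y * τ * Complex.I)‖ = 1 := by
      intro y
      have := norm_exp_I (2 * π * y * τ)
      rw [← this]
      congr 2
      push_cast; ring
    rw [e1, e1]; norm_num
  have hq : LCp (fun x => b x * g x) :=
    hbL.mul_lip (2 * π * |τ|) 2 (by positivity) (by norm_num) (fun x y => exp_lip τ ξ x y) hgM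
  have hz : ∀ ζ, 𝓕 f ζ = 0 → b ζ * g ζ = 0 := by
    intro ζ hζ
    by_cases hne : ζ = ξ
    · rw [hne]
      simp only [g, sub_self, mul_zero]
    · have h1 := hiso ζ hζ hne
      have : b ζ = 0 := by
        simp only [hb]
        rw [tent_zero, Complex.ofReal_zero]
        rw [abs_div, abs_of_pos hρ, le_div_iff₀ hρ, one_mul]
        exact h1
      rw [this, zero_mul]
  have hb0 : b 0 = 0 := by
    simp only [hb]
    rw [tent_zero, Complex.ofReal_zero]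
    rw [abs_div, abs_of_pos hρ, le_div_iff₀ hρ, one_mul, zero_sub, abs_neg]
    exact hρ0
  have h1 := AA_zero_cx hm hD hf hc hL hF hq hz h0 x
  rw [hb0, zero_mul, zero_div, mul_zero] at h1
  have h2 := AA_shift (h := h) b (-τ) x
  rw [sub_neg_eq_add] at h2
  -- b * g = exp * b - const * b
  have hb1 : LCp (fun ξ : ℝ => Complex.exp (-(2 * π * ξ * ((-τ : ℝ) : ℂ) * Complex.I)) * b ξ) := by
    have := hbL.mul_lip (g := fun x : ℝ => Complex.exp (-(2 * π * x * ((-τ : ℝ) : ℂ) * Complex.I)))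
      (2 * π * |τ|) 1 (by positivity) (by norm_num) (fun x y => by
        have := exp_lip τ ξ x y
        rw [sub_sub_sub_cancel_right] at this
        have e3 : ∀ x : ℝ, Complex.exp (-(2 * π * x * ((-τ : ℝ) : ℂ) * Complex.I))
          = Complex.exp (2 * π * x * τ * Complex.I) := by
          intro x; congr 1; push_cast; ring
        rw [e3, e3]
        exact this) (fun x => by
        have := norm_exp_I (2 * π * x * τ)
        rw [← this]
        refine le_of_eq ?_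
        congr 2
        push_cast; ring)
    refine this.congr' ?_
    funext x
    ring
  have h3 : AA h (fun x => b x * g x) x
      = AA h (fun ξ : ℝ => Complex.exp (-(2 * π * ξ * ((-τ : ℝ) : ℂ) * Complex.I)) * b ξ) x
        + AA h (fun x => (-Complex.exp (2 * π * ξ * τ * Complex.I)) * b x) x := by
    rw [← AA_add hm hD hb1 (hbL.const_mul _)]
    congr 1
    funext x
    simp only [g]
    have : Complex.exp (-(2 * π * x * ((-τ : ℝ) : ℂ) * Complex.I))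
          = Complex.exp (2 * π * x * τ * Complex.I) := by
      congr 1; push_cast; ring
    rw [this]
    ring
  rw [h1, h2, AA_const_mul] at h3
  have h4 : AA h b (x + τ) = Complex.exp (2 * π * ξ * τ * Complex.I) * AA h b x := by
    linear_combination -h3
  exact h4

theorem BAP_real {ψ : ℝ → ℝ} (hψ : LCp (cx ψ)) (h0 : 𝓕 f 0 ≠ 0)
    (hacc : ∀ ξ, AccPt ξ (𝓟 {ζ | 𝓕 f ζ = 0}) → ψ ξ = 0) : BAP (AA h (cx ψ)) := by
  classical
  intro ε hε
  have hD0 : 0 ≤ D := (norm_nonneg _).trans (hD 0)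
  obtain ⟨K, B, hK, hB, hk⟩ := id hψ
  set C := 2 * B + K ^ 2 * (2 * B + 2) + 4 with hC
  have hC0 : 0 < C := by positivity
  -- choice of δ
  obtain ⟨δ, hδ, hδC⟩ : ∃ δ : ℝ, 0 < δ ∧ D * (C * Real.sqrt δ) ≤ ε / 4 := by
    refine ⟨(ε / (4 * (D + 1) * C)) ^ 2, by positivity, ?_⟩
    rw [Real.sqrt_sq (by positivity)]
    have : D * (C * (ε / (4 * (D + 1) * C))) = D / (D + 1) * (ε / 4) := by
      field_simp
    rw [this]
    have : D / (D + 1) ≤ 1 := by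
      rw [div_le_one (by positivity)]; linarith
    nlinarith
  -- clipped part
  have hcl := hψ.clipc hδ.le
  have hclb : ∀ x, ‖AA h (cx fun x => clip δ (ψ x)) x‖ ≤ ε / 4 := by
    intro x
    refine (AA_norm hD hcl.intF x).trans (le_trans ?_ hδC)
    refine mul_le_mul_of_nonneg_left ?_ hD0
    have hk2 : LC K B (cx fun x => clip δ (ψ x)) := by
      constructor
      · intro x y
        have := hk.1 x y
        simp only [cx] at this ⊢
        rw [← Complex.ofReal_sub, Complex.norm_real, Real.norm_eq_abs] at this ⊢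
        exact (clip_lip _ _ _).trans this
      · intro x hx
        have := hk.2 x hx
        simp only [cx, Complex.ofReal_eq_zero] at this ⊢
        rw [this]
        exact clip_eq (by simpa using hδ.le)
    exact (l1_bound hB hδ hk2 (fun x => by
      simp only [cx]
      rw [Complex.norm_real, Real.norm_eq_abs]
      exact clip_abs hδ.le _)).2
  -- the finite set of zeros
  have hK1 := zero_compact hψ hδ
  have hfin : ({ζ | 𝓕 f ζ = 0} ∩ {x : ℝ | δ ≤ |ψ x|}).Finite := by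
    by_contra hinf
    have hinf' : ({ζ | 𝓕 f ζ = 0} ∩ {x : ℝ | δ ≤ |ψ x|}).Infinite := hinf
    obtain ⟨x, hx, hxa⟩ := hinf'.exists_accPt_of_subset_isCompact hK1 inter_subset_right
    have h1 : AccPt x (𝓟 {ζ | 𝓕 f ζ = 0}) := hxa.mono (principal_mono.2 inter_subset_left)
    have h2 := hacc x h1
    rw [mem_setOf_eq, h2, abs_zero] at hx
    linarith
  set F := hfin.toFinset with hFs
  have hmem : ∀ ξ, ξ ∈ F ↔ 𝓕 f ξ = 0 ∧ δ ≤ |ψ ξ| := by
    intro ξ; rw [hFs, hfin.mem_toFinset]; rfl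
  -- radii
  have hrad : ∀ ξ : ℝ, ∃ ρ : ℝ, 0 < ρ ∧ (ξ ∈ F → ρ ≤ |ξ| ∧ ∀ ζ, 𝓕 f ζ = 0 → ζ ≠ ξ → ρ ≤ |ζ - ξ|) := by
    intro ξ
    by_cases hξ : ξ ∈ F
    · obtain ⟨hξ1, hξ2⟩ := (hmem ξ).1 hξ
      have hna : ¬ AccPt ξ (𝓟 {ζ | 𝓕 f ζ = 0}) := by
        intro hcon
        rw [hacc ξ hcon, abs_zero] at hξ2
        linarith
      rw [accPt_iff_nhds] at hna
      push Not at hna
      obtain ⟨U, hU, hU'⟩ := hna
      obtain ⟨ρ, hρ, hρ'⟩ := Metric.mem_nhds_iff.1 hU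
      have hξ0 : ξ ≠ 0 := by
        intro hcon; rw [hcon] at hξ1; exact h0 hξ1
      refine ⟨min ρ |ξ|, lt_min hρ (abs_pos.2 hξ0), fun _ => ⟨min_le_right _ _, fun ζ hζ hne => ?_⟩⟩
      refine (min_le_left _ _).trans ?_
      by_contra hcon
      have h1 : ζ ∈ U := hρ' (by rw [Metric.mem_ball, Real.dist_eq]; exact not_le.1 hcon)
      exact hne (hU' ζ ⟨h1, hζ⟩)
    · exact ⟨1, one_pos, fun h => absurd h hξ⟩
  choose ρ hρ0 hρ using hrad
  let b : ℝ → ℝ → ℂ := fun ξ x => ((tent ((x - ξ) / ρ ξ) : ℝ) : ℂ)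
  have hbL : ∀ ξ, LCp (b ξ) := fun ξ =>
    ⟨1 / ρ ξ, |ξ| + ρ ξ, by have := hρ0 ξ; positivity, by have := hρ0 ξ; positivity, lc_tent ξ (ρ ξ) (hρ0 ξ)⟩
  set s : ℝ → ℂ := cx (fun x => ψ x - clip δ (ψ x)) with hs
  have hsL : LCp s := hψ.soft hδ.le
  have hszero : ∀ ζ, ¬ (δ ≤ |ψ ζ|) → s ζ = 0 := by
    intro ζ hζ
    simp only [hs, cx, Complex.ofReal_eq_zero]
    rw [clip_eq (not_le.1 hζ).le, sub_self]
  have hb0 : ∀ ξ ∈ F, ∀ ζ, 𝓕 f ζ = 0 → ζ ≠ ξ → b ξ ζ = 0 := by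
    intro ξ hξ ζ hζ hne
    simp only [b]
    rw [tent_zero, Complex.ofReal_zero]
    rw [abs_div, abs_of_pos (hρ0 ξ), le_div_iff₀ (hρ0 ξ), one_mul]
    exact (hρ ξ hξ).2 ζ hζ hne
  have hb1 : ∀ ξ, b ξ ξ = 1 := by
    intro ξ; simp [b, tent_self]
  -- p vanishes on the zeros
  let p : ℝ → ℂ := fun x => s x + (-1) * ∑ ξ ∈ F, s ξ * b ξ x
  have hSL : LCp (fun x => ∑ ξ ∈ F, s ξ * b ξ x) :=
    LCp.sum F (fun ξ x => s ξ * b ξ x) fun ξ _ => (hbL ξ).const_mul _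
  have hpL : LCp p := hsL.add (hSL.const_mul _)
  have hpz : ∀ ζ, 𝓕 f ζ = 0 → p ζ = 0 := by
    intro ζ hζ
    simp only [p]
    by_cases hζF : ζ ∈ F
    · rw [Finset.sum_eq_single ζ]
      · rw [hb1]; ring
      · intro ξ hξ hne
        rw [hb0 ξ hξ ζ hζ (Ne.symm hne), mul_zero]
      · intro hcon; exact absurd hζF hcon
    · have h1 : s ζ = 0 := by
        refine hszero ζ fun hcon => hζF ((hmem ζ).2 ⟨hζ, hcon⟩)
      rw [Finset.sum_eq_zero, h1]
      · ring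
      · intro ξ hξ
        rw [hb0 ξ hξ ζ hζ (fun h => hζF (h ▸ hξ)), mul_zero]
  have hp : ∀ x, AA h p x = c * (p 0 / 𝓕 f 0) := fun x =>
    AA_zero_cx hm hD hf hc hL hF hpL hpz h0 x
  have hs_eq : ∀ x, AA h s x = c * (p 0 / 𝓕 f 0) + ∑ ξ ∈ F, s ξ * AA h (b ξ) x := by
    intro x
    have e1 : s = fun x => p x + ∑ ξ ∈ F, s ξ * b ξ x := by
      funext x; simp only [p]; ring
    have e2 : AA h s x = AA h p x + AA h (fun x => ∑ ξ ∈ F, s ξ * b ξ x) x := by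
      conv_lhs => rw [e1]
      exact AA_add hm hD hpL hSL x
    rw [e2, hp, AA_sum hm hD F (fun ξ x => s ξ * b ξ x) (fun ξ _ => (hbL ξ).const_mul _)]
    congr 1
    refine Finset.sum_congr rfl fun ξ _ => ?_
    exact AA_const_mul _ _ _
  -- constants
  set S : ℝ := ∑ ξ ∈ F, ‖s ξ‖ * (D * ∫ y, ‖𝓕 (b ξ) y‖) with hS
  have hS0 : 0 ≤ S := Finset.sum_nonneg fun ξ _ => by
    have : 0 ≤ ∫ y, ‖𝓕 (b ξ) y‖ := integral_nonneg fun _ => norm_nonneg _
    positivity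
  refine ⟨F, ε / (2 * (S + 1)), by positivity, fun τ hτ x => ?_⟩
  have e1 : ∀ x, AA h (cx ψ) x = AA h s x + AA h (cx fun x => clip δ (ψ x)) x := by
    intro x
    rw [← AA_add hm hD hsL hcl]
    congr 1
    funext ξ
    simp only [hs, cx]
    push_cast
    ring
  have e2 : AA h s (x + τ) - AA h s x
      = ∑ ξ ∈ F, s ξ * ((Complex.exp (2 * π * ξ * τ * Complex.I) - 1) * AA h (b ξ) x) := by
    rw [hs_eq, hs_eq, add_sub_add_left_eq_sub, ← Finset.sum_sub_distrib]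
    refine Finset.sum_congr rfl fun ξ hξ => ?_
    have := AA_bump hm hD hf hc hL hF h0 ξ (ρ ξ) (hρ0 ξ) (hρ ξ hξ).1 (hρ ξ hξ).2 τ x
    have this' : AA h (b ξ) (x + τ) = Complex.exp (2 * π * ξ * τ * Complex.I) * AA h (b ξ) x := this
    rw [this']
    ring
  have e3 : ‖AA h s (x + τ) - AA h s x‖ ≤ ε / 2 := by
    rw [e2]
    refine (norm_sum_le _ _).trans ?_
    calc ∑ ξ ∈ F, ‖s ξ * ((Complex.exp (2 * π * ξ * τ * Complex.I) - 1) * AA h (b ξ) x)‖
        ≤ ∑ ξ ∈ F, (‖s ξ‖ * (D * ∫ y, ‖𝓕 (b ξ) y‖)) * (ε / (2 * (S + 1))) := by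
          refine Finset.sum_le_sum fun ξ hξ => ?_
          exact term_bound _ _ _ _ _ (hτ ξ hξ) (AA_norm hD (hbL ξ).intF x)
      _ = S * (ε / (2 * (S + 1))) := by rw [← Finset.sum_mul]
      _ ≤ ε / 2 := by
          rw [mul_div_assoc', div_le_div_iff₀ (by positivity) (by positivity)]
          nlinarith
  rw [e1, e1]
  have e4 : AA h s (x + τ) + AA h (cx fun x => clip δ (ψ x)) (x + τ)
      - (AA h s x + AA h (cx fun x => clip δ (ψ x)) x)
      = (AA h s (x + τ) - AA h s x) + AA h (cx fun x => clip δ (ψ x)) (x + τ)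
        - AA h (cx fun x => clip δ (ψ x)) x := by ring
  rw [e4]
  refine (norm_sub_le _ _).trans ?_
  refine (add_le_add_left (norm_add_le _ _) _).trans ?_
  have h1 := hclb (x + τ)
  have h2 := hclb x
  linarith

end

end Pool.Agent.L5helper94.TA
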