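import Mathlib
open MeasureTheory Set Filter Topology FourierTransform
open scoped ENNReal Real Convolution ComplexConjugate

namespace Pool.Agent.L5helper94.TA

theorem fatou_le {f : ℕ → ℝ → ℝ≥0∞} {g : ℝ → ℝ≥0∞} {C : ℝ≥0∞} (hm : ∀ n, Measurable (f n))
    (hl : ∀ x, Tendsto (fun n => f n x) atTop (𝓝 (g x))) (hb : ∀ n, ∫⁻ x, f n x ≤ C) :
    ∫⁻ x, g x ≤ C := by
  have h1 : ∀ x, g x = liminf (fun n => f n x) atTop := fun x => (hl x).liminf_eq.symm
  rw [lintegral_congr h1]
  refine (lintegral_liminf_le hm).trans ?_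
  refine (liminf_le_liminf (Eventually.of_forall hb)).trans ?_
  simp

theorem fourier_conj_neg (q : ℝ → ℂ) (w : ℝ) :
    𝓕 (fun x => conj (q (-x))) w = conj (𝓕 q w) := by
  rw [Real.fourier_real_eq_integral_exp_smul, Real.fourier_real_eq_integral_exp_smul,
    ← integral_conj, ← integral_neg_eq_self]
  refine integral_congr_ae (Eventually.of_forall fun v => ?_)
  simp only [smul_eq_mul, map_mul, neg_neg, ← Complex.exp_conj, Complex.conj_I, Complex.conj_ofReal]
  congr 2
  push_cast
  ring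

theorem norm_fourier_gauss (ε : ℝ) (hε : 0 < ε) :
    ∫ t : ℝ, ‖𝓕 (fun x : ℝ => Complex.exp (-π * (ε : ℂ) * (x : ℂ) ^ 2)) t‖ = 1 := by
  rw [fourier_gaussian_pi (by simpa using hε)]
  have h1 : ∀ t : ℝ, ‖(1 / (ε : ℂ) ^ (1 / 2 : ℂ) * Complex.exp (-π / (ε : ℂ) * (t : ℂ) ^ 2) : ℂ)‖
      = 1 / Real.sqrt ε * Real.exp (-(π / ε) * t ^ 2) := by
    intro t
    rw [norm_mul, norm_div, norm_one, Complex.norm_exp]
    congr 2
    · rw [Complex.norm_cpow_eq_rpow_re_of_pos hε, Real.sqrt_eq_rpow]
      norm_num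
    · have : (-π / (ε : ℂ) * (t : ℂ) ^ 2 : ℂ) = ((-(π / ε) * t ^ 2 : ℝ) : ℂ) := by
        push_cast; ring
      rw [this, Complex.ofReal_re]
  simp_rw [h1]
  rw [integral_const_mul, integral_gaussian]
  have : π / (π / ε) = ε := by
    field_simp
  rw [this]
  have : 0 < Real.sqrt ε := Real.sqrt_pos.2 hε
  field_simp

theorem bessel (q : ℝ → ℂ) (hq : Integrable q) (hq2 : Integrable (fun x => ‖q x‖ ^ 2)) :
    ∫⁻ w, ENNReal.ofReal (‖𝓕 q w‖ ^ 2) ≤ ENNReal.ofReal (∫ x, ‖q x‖ ^ 2) := by
  set S := ∫ x, ‖q x‖ ^ 2 with hS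
  have hS0 : 0 ≤ S := integral_nonneg fun x => by positivity
  let qt : ℝ → ℂ := fun x => conj (q (-x))
  have hqt : Integrable qt := by
    have h1 : Integrable (fun x => q (-x)) := hq.comp_neg
    exact (Complex.conjLIE.toLinearIsometry.toContinuousLinearMap).integrable_comp h1
  let u : ℝ → ℂ := q ⋆[ContinuousLinearMap.mul ℂ ℂ] qt
  have hu : Integrable u := hq.integrable_convolution _ hqt
  have hFu : ∀ w, 𝓕 u w = ((‖𝓕 q w‖ ^ 2 : ℝ) : ℂ) := by
    intro w
    have := Real.fourier_mul_convolution_eq hq hqt w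
    rw [show 𝓕 u w = 𝓕 q w * 𝓕 qt w from this, fourier_conj_neg, Complex.mul_conj,
      Complex.normSq_eq_norm_sq]
  have hun : ∀ x, ‖u x‖ ≤ S := by
    intro x
    have e1 : u x = ∫ t, q t * conj (q (t - x)) := by
      show ∫ t, (ContinuousLinearMap.mul ℂ ℂ) (q t) (qt (x - t)) = _
      refine integral_congr_ae (Eventually.of_forall fun t => ?_)
      simp only [ContinuousLinearMap.mul_apply', qt, neg_sub]
    rw [e1]
    have hi1 : Integrable (fun t => ‖q (t - x)‖ ^ 2) := hq2.comp_sub_right x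
    have hS' : ∫ t, ‖q (t - x)‖ ^ 2 = S := integral_sub_right_eq_self (fun t => ‖q t‖ ^ 2) x
    have := norm_integral_le_of_norm_le (μ := volume) (f := fun t => q t * conj (q (t - x)))
      (g := fun t => (1/2) * (‖q t‖ ^ 2 + ‖q (t - x)‖ ^ 2)) ((hq2.add hi1).const_mul _)
      (Eventually.of_forall fun t => by
        rw [norm_mul, RCLike.norm_conj]
        nlinarith [sq_nonneg (‖q t‖ - ‖q (t - x)‖)])
    refine this.trans (le_of_eq ?_)
    rw [integral_const_mul, integral_add hq2 hi1, hS', ← hS]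
    ring
  have hq' : Continuous (𝓕 q) := by
    have := VectorFourier.fourierIntegral_continuous (μ := (volume : Measure ℝ)) (f := q)
      Real.continuous_fourierChar (L := innerₗ ℝ) continuous_inner hq
    exact this
  have hqb : ∀ w, ‖𝓕 q w‖ ≤ ∫ x, ‖q x‖ := fun w =>
    VectorFourier.norm_fourierIntegral_le_integral_norm _ _ _ _ _
  have key : ∀ ε : ℝ, 0 < ε → ∫⁻ w, ENNReal.ofReal (Real.exp (-π * ε * w ^ 2) * ‖𝓕 q w‖ ^ 2)
      ≤ ENNReal.ofReal S := by
    intro ε hε
    let g : ℝ → ℂ := fun x : ℝ => Complex.exp (-π * (ε : ℂ) * (x : ℂ) ^ 2)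
    have hg : Integrable g := by
      have := integrable_cexp_neg_mul_sq (b := (π * ε : ℂ)) (by
        have : (0:ℝ) < π * ε := by positivity
        have e : (π * ε : ℂ) = ((π * ε : ℝ) : ℂ) := by push_cast; ring
        rw [e, Complex.ofReal_re]; exact this)
      refine this.congr (Eventually.of_forall fun x => ?_)
      simp only [g]
      congr 1
      ring
    have h1 := VectorFourier.integral_fourierIntegral_smul_eq_flip (μ := (volume : Measure ℝ))
      (ν := (volume : Measure ℝ)) (f := g) (g := u)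
      Real.continuous_fourierChar (L := innerₗ ℝ) continuous_inner hg hu
    have h2 : ∫ ξ, 𝓕 g ξ * u ξ = ∫ x, g x * 𝓕 u x := by
      simpa using! h1
    have hreal : ∀ x : ℝ, g x = ((Real.exp (-π * ε * x ^ 2) : ℝ) : ℂ) := by
      intro x; simp only [g]; push_cast; rfl
    have h3 : ∫ x, g x * 𝓕 u x = ((∫ w, Real.exp (-π * ε * w ^ 2) * ‖𝓕 q w‖ ^ 2 : ℝ) : ℂ) := by
      rw [← integral_complex_ofReal]
      refine integral_congr_ae (Eventually.of_forall fun w => ?_)
      simp only [hFu, hreal]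
      push_cast; ring
    have hFg : Integrable (fun t => ‖𝓕 g t‖) := by
      by_contra hcon
      have := norm_fourier_gauss ε hε
      rw [integral_undef hcon] at this
      norm_num at this
    have h4 : ‖∫ ξ, 𝓕 g ξ * u ξ‖ ≤ S := by
      have := norm_integral_le_of_norm_le (μ := volume) (f := fun ξ => 𝓕 g ξ * u ξ)
        (g := fun ξ => ‖𝓕 g ξ‖ * S) (hFg.mul_const S)
        (Eventually.of_forall fun t => by
          rw [norm_mul]
          exact mul_le_mul_of_nonneg_left (hun t) (norm_nonneg _))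
      refine this.trans (le_of_eq ?_)
      rw [integral_mul_const, norm_fourier_gauss ε hε, one_mul]
    have hint : Integrable (fun w : ℝ => Real.exp (-π * ε * w ^ 2) * ‖𝓕 q w‖ ^ 2) := by
      have hgr : Integrable (fun w : ℝ => Real.exp (-(π * ε) * w ^ 2)) :=
        integrable_exp_neg_mul_sq (by positivity)
      refine Integrable.mono' (hgr.mul_const ((∫ x, ‖q x‖) ^ 2)) ?_ ?_
      · refine Continuous.aestronglyMeasurable ?_
        exact (by fun_prop : Continuous fun w : ℝ => Real.exp (-π * ε * w ^ 2)).mul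
          ((continuous_norm.comp hq').pow 2)
      · refine Eventually.of_forall fun w => ?_
        rw [Real.norm_of_nonneg (by positivity)]
        have e : -π * ε * w ^ 2 = -(π * ε) * w ^ 2 := by ring
        rw [e]
        have := hqb w
        gcongr
    rw [h2, h3, Complex.norm_real] at h4
    rw [← ofReal_integral_eq_lintegral_ofReal hint (Eventually.of_forall fun w => by positivity)]
    exact ENNReal.ofReal_le_ofReal ((le_abs_self _).trans h4)
  refine fatou_le (f := fun n w => ENNReal.ofReal (Real.exp (-π * (1 / ((n:ℝ) + 1)) * w ^ 2) * ‖𝓕 q w‖ ^ 2))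
    ?_ ?_ ?_
  · intro n
    refine Measurable.ennreal_ofReal ?_
    refine Measurable.mul ?_ ?_
    · exact (by fun_prop : Continuous fun w : ℝ => Real.exp (-π * (1 / ((n:ℝ) + 1)) * w ^ 2)).measurable
    · exact ((continuous_norm.comp hq').pow 2).measurable
  · intro x
    refine ENNReal.tendsto_ofReal ?_
    have h0 : Tendsto (fun n : ℕ => 1 / ((n:ℝ) + 1)) atTop (𝓝 0) := tendsto_one_div_add_atTop_nhds_zero_nat
    have h1 : Tendsto (fun n : ℕ => Real.exp (-π * (1 / ((n:ℝ) + 1)) * x ^ 2)) atTop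
        (𝓝 (Real.exp (-π * 0 * x ^ 2))) :=
      (Real.continuous_exp.tendsto _).comp ((h0.const_mul (-π)).mul_const (x ^ 2))
    rw [mul_zero, zero_mul, Real.exp_zero] at h1
    simpa using h1.mul_const (‖𝓕 q x‖ ^ 2)
  · intro n
    exact key _ (by positivity)

end Pool.Agent.L5helper94.TA
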