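import Pool.Agent.L5helper94.TA.AP
open MeasureTheory Set Filter Topology FourierTransform
open scoped ENNReal Real Convolution ComplexConjugate

namespace Pool.Agent.L5helper94.TA

theorem fourier_lip (u : ℝ → ℂ) (hu : Integrable u) (hu1 : Integrable (fun t : ℝ => (t : ℂ) * u t))
    (x y : ℝ) : ‖𝓕 u x - 𝓕 u y‖ ≤ (2 * π * ∫ t : ℝ, ‖(t : ℂ) * u t‖) * |x - y| := by
  have conv : ∀ w : ℝ, Integrable (fun v : ℝ => Complex.exp (((-2 * π * v * w : ℝ) : ℂ) * Complex.I) • u v) := by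
    intro w
    have := (Real.fourierIntegral_convergent_iff (μ := (volume : Measure ℝ)) (f := u) w).2 hu
    refine this.congr (Eventually.of_forall fun v => ?_)
    simp only [Circle.smul_def, Real.fourierChar_apply]
    congr 2
    simp only [RCLike.inner_apply, conj_trivial]
    push_cast; ring
  rw [Real.fourier_real_eq_integral_exp_smul, Real.fourier_real_eq_integral_exp_smul,
    ← integral_sub (conv x) (conv y)]
  have hi : Integrable (fun t : ℝ => 2 * π * |x - y| * ‖(t : ℂ) * u t‖) := hu1.norm.const_mul _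
  refine (norm_integral_le_of_norm_le hi (Eventually.of_forall fun t => ?_)).trans (le_of_eq ?_)
  · rw [smul_eq_mul, smul_eq_mul, ← sub_mul, norm_mul, norm_mul, Complex.norm_real]
    have e : Complex.exp (((-2 * π * t * x : ℝ) : ℂ) * Complex.I) - Complex.exp (((-2 * π * t * y : ℝ) : ℂ) * Complex.I)
        = Complex.exp (((-2 * π * t * y : ℝ) : ℂ) * Complex.I) *
          (Complex.exp (Complex.I * ((-2 * π * t * (x - y) : ℝ) : ℂ)) - 1) := by
      rw [mul_sub, mul_one, ← Complex.exp_add]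
      congr 2
      push_cast; ring
    rw [e, norm_mul, norm_exp_I, one_mul]
    have h1 : ‖Complex.exp (Complex.I * ((-2 * π * t * (x - y) : ℝ) : ℂ)) - 1‖ ≤ ‖(-2 * π * t * (x - y) : ℝ)‖ :=
      Real.norm_exp_I_mul_ofReal_sub_one_le
    have h2 : ‖(-2 * π * t * (x - y) : ℝ)‖ = 2 * π * |x - y| * ‖t‖ := by
      rw [Real.norm_eq_abs, Real.norm_eq_abs, abs_mul, abs_mul, abs_mul, abs_neg, abs_of_pos Real.pi_pos]
      rw [abs_of_pos (by norm_num : (0:ℝ) < 2)]
      ring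
    rw [h2] at h1
    calc ‖Complex.exp (Complex.I * ((-2 * π * t * (x - y) : ℝ) : ℂ)) - 1‖ * ‖u t‖
        ≤ (2 * π * |x - y| * ‖t‖) * ‖u t‖ := mul_le_mul_of_nonneg_right h1 (norm_nonneg _)
      _ = 2 * π * |x - y| * (‖t‖ * ‖u t‖) := by ring
  · rw [integral_const_mul]
    ring

theorem fourier_acc (f : ℝ → ℂ) (hf : Integrable f) (hf1 : Integrable (fun t : ℝ => (t : ℂ) * f t))
    (ξ : ℝ) (hacc : AccPt ξ (𝓟 {ζ | 𝓕 f ζ = 0})) : 𝓕 (fun t : ℝ => (t : ℂ) * f t) ξ = 0 := by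
  have hc : Continuous (𝓕 f) := fourier_cont hf
  have hξ : 𝓕 f ξ = 0 := by
    have hcl : IsClosed {ζ | 𝓕 f ζ = 0} := isClosed_eq hc continuous_const
    have : ClusterPt ξ (𝓟 {ζ | 𝓕 f ζ = 0}) := hacc.clusterPt
    exact hcl.closure_subset (mem_closure_iff_clusterPt.2 this)
  have hf1' : Integrable (fun x : ℝ => x • f x) := by
    refine hf1.congr (Eventually.of_forall fun x => ?_)
    simp only [Complex.real_smul]
  have hd := Real.hasDerivAt_fourier hf hf1' ξ
  have e : 𝓕 (fun x : ℝ => (-2 * π * Complex.I * x) • f x) ξ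
      = (-2 * π * Complex.I) * 𝓕 (fun t : ℝ => (t : ℂ) * f t) ξ := by
    rw [← fourier_const_mul']
    have e' : (fun x : ℝ => (-2 * π * Complex.I * x) • f x)
        = (fun x : ℝ => (-2 * π * Complex.I) * ((x : ℂ) * f x)) := by
      funext x
      simp only [smul_eq_mul]
      ring
    rw [e']
  rw [e] at hd
  rw [accPt_iff_frequently_nhdsNE] at hacc
  by_contra hne
  have hne' : (-2 * π * Complex.I) * 𝓕 (fun t : ℝ => (t : ℂ) * f t) ξ ≠ 0 := by
    refine mul_ne_zero ?_ hne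
    have : (π : ℂ) ≠ 0 := by exact_mod_cast Real.pi_ne_zero
    simp [this, Complex.I_ne_zero]
  have h1 := hd.tendsto_slope.eventually_ne hne'
  obtain ⟨y, hy1, hy2⟩ := (hacc.and_eventually h1).exists
  apply hy2
  have hy1' : 𝓕 f y = 0 := hy1
  rw [slope_def_module, hy1', hξ, sub_zero, smul_zero]

/-- **Almost periodicity theorem.** If `f` has a finite second moment, `∫ f ≠ 0`, `h` is bounded
and `f * h` is constant, then `(x f) * h` is almost periodic in the sense of Bohr. -/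
theorem ap_main (f : ℝ → ℂ) (hfm : Measurable f) (hf : Integrable f)
    (hf1 : Integrable (fun t : ℝ => (t : ℂ) * f t))
    (hf2 : Integrable (fun t : ℝ => (t : ℂ) * ((t : ℂ) * f t)))
    (h0 : 𝓕 f 0 ≠ 0) (h : ℝ → ℂ) (D : ℝ) (hm : Measurable h) (hD : ∀ x, ‖h x‖ ≤ D)
    (c : ℂ) (hc : ∀ x, ∫ t, f t * h (x - t) = c) :
    BAP (fun x => ∫ t : ℝ, ((t : ℂ) * f t) * h (x - t)) := by
  have hD0 : 0 ≤ D := (norm_nonneg _).trans (hD 0)
  set g : ℝ → ℂ := fun t : ℝ => (t : ℂ) * f t with hg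
  have hgm : Measurable g := (Complex.measurable_ofReal).mul hfm
  set L : ℝ := 2 * π * ∫ t : ℝ, ‖(t : ℂ) * f t‖ with hL
  have hL0 : 0 ≤ L := by
    have : 0 ≤ ∫ t : ℝ, ‖(t : ℂ) * f t‖ := integral_nonneg fun _ => norm_nonneg _
    positivity
  have hF := fourier_lip f hf hf1
  set L2 : ℝ := 2 * π * ∫ t : ℝ, ‖(t : ℂ) * g t‖ with hL2
  have hL20 : 0 ≤ L2 := by
    have : 0 ≤ ∫ t : ℝ, ‖(t : ℂ) * g t‖ := integral_nonneg fun _ => norm_nonneg _
    positivity
  have hG := fourier_lip g hf1 hf2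
  have hGM : ∀ w, ‖𝓕 g w‖ ≤ ∫ t, ‖g t‖ := fun w =>
    VectorFourier.norm_fourierIntegral_le_integral_norm _ _ _ _ _
  refine BAP.of_approx fun ε hε => ?_
  obtain ⟨n, hn, happ⟩ := approx g hgm hf1 (ε / (D + 1)) (by positivity)
  set q : ℝ → ℂ := fun ξ => ((tent ((ξ - 0) / n) : ℝ) : ℂ) * 𝓕 g ξ with hq
  have hqL : LCp q := by
    have h1 : LCp (fun ξ : ℝ => ((tent ((ξ - 0) / n) : ℝ) : ℂ)) :=
      ⟨1 / n, |0| + n, by positivity, by positivity, lc_tent 0 n hn⟩
    exact h1.mul_lip L2 (∫ t, ‖g t‖) hL20 (integral_nonneg fun _ => norm_nonneg _) hG hGM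
  have hqz : ∀ ξ, AccPt ξ (𝓟 {ζ | 𝓕 f ζ = 0}) → q ξ = 0 := by
    intro ξ hξ
    simp only [hq]
    rw [fourier_acc f hf hf1 ξ hξ, mul_zero]
  have hre : LCp (cx fun x => (q x).re) := hqL.re
  have him : LCp (cx fun x => (q x).im) := hqL.im
  have hB1 : BAP (AA h (cx fun x => (q x).re)) :=
    BAP_real hm hD hf hc hL0 hF hre h0 fun ξ hξ => by rw [hqz ξ hξ]; rfl
  have hB2 : BAP (AA h (cx fun x => (q x).im)) :=
    BAP_real hm hD hf hc hL0 hF him h0 fun ξ hξ => by rw [hqz ξ hξ]; rfl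
  have hB : BAP (AA h q) := by
    have h1 := hB1.add (hB2.const_mul Complex.I)
    have h2 : (fun x => AA h (cx fun x => (q x).re) x + Complex.I * AA h (cx fun x => (q x).im) x)
        = AA h q := by
      funext x
      rw [← AA_const_mul, ← AA_add hm hD hre (him.const_mul _)]
      congr 1
      funext ξ
      simp only [cx]
      rw [mul_comm]
      exact Complex.re_add_im _
    rwa [h2] at h1
  refine ⟨AA h q, hB, fun x => ?_⟩
  have e1 : ∫ t : ℝ, g t * h (x - t) = ∫ y : ℝ, g (-y) * h (x + y) := by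
    rw [← integral_neg_eq_self (fun t => g t * h (x - t))]
    refine integral_congr_ae (Eventually.of_forall fun y => ?_)
    simp only [sub_neg_eq_add]
  have hgn : Integrable (fun y => g (-y)) := hf1.comp_neg
  show ‖(∫ t : ℝ, g t * h (x - t)) - AA h q x‖ ≤ ε
  rw [e1]
  unfold AA
  rw [← integral_sub (AA_int hm hD hgn x) (AA_int hm hD hqL.intF x)]
  have hdi : Integrable (fun y => D * ‖𝓕 q y - g (-y)‖) := (hqL.intF.sub hgn).norm.const_mul D
  refine (norm_integral_le_of_norm_le hdi (Eventually.of_forall fun y => ?_)).trans ?_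
  · rw [← sub_mul, norm_mul, mul_comm, norm_sub_rev]
    exact mul_le_mul_of_nonneg_right (hD _) (norm_nonneg _)
  · rw [integral_const_mul]
    have h3 : ∫ y, ‖𝓕 q y - g (-y)‖ ≤ ε / (D + 1) := by
      have h4 := ofReal_integral_norm_eq_lintegral_enorm (hqL.intF.sub hgn)
      have h5 : ENNReal.ofReal (∫ y, ‖𝓕 q y - g (-y)‖) ≤ ENNReal.ofReal (ε / (D + 1)) := by
        have h6 : ENNReal.ofReal (∫ y, ‖𝓕 q y - g (-y)‖) = ∫⁻ y, ‖𝓕 q y - g (-y)‖ₑ := h4
        rw [h6]
        exact happ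
      exact (ENNReal.ofReal_le_ofReal_iff (by positivity)).1 h5
    calc D * ∫ y, ‖𝓕 q y - g (-y)‖ ≤ D * (ε / (D + 1)) := mul_le_mul_of_nonneg_left h3 hD0
      _ ≤ ε := by
          rw [mul_div_assoc', div_le_iff₀ (by positivity)]
          nlinarith

end Pool.Agent.L5helper94.TA
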