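import Pool.Agent.L5helper94.TA.Tile3
open MeasureTheory Set Filter Topology FourierTransform
open scoped ENNReal Real Convolution ComplexConjugate
open Pool.Agent.W703.TL (Tiles Within HasPeriodicStructure)

namespace Pool.Agent.L5helper94.TA

theorem phi_aemeas {Ω L : Set ℝ} (hΩ : MeasurableSet Ω) (hL : Tiles Ω L) : AEMeasurable (phi Ω L) := by
  have : Countable L := hL.1.to_subtype
  refine aemeasurable_of_tendsto_metrizable_ae (atTop : Filter (Finset L))
    (f := fun (s : Finset L) z => ∑ b ∈ s, Ω.indicator (fun t : ℝ => (t : ℂ)) (z - b)) (fun s => ?_) ?_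
  · refine Finset.aemeasurable_fun_sum _ fun b _ => ?_
    exact ((Complex.measurable_ofReal.indicator hΩ).comp (measurable_id.sub_const (b : ℝ))).aemeasurable
  · filter_upwards [phi_hasSum hL] with z hz
    exact hz.1

theorem detect {Ω L : Set ℝ} (hΩ : MeasurableSet Ω) (hL : Tiles Ω L) (u l : ℝ) (hl : 0 < l)
    (hκ : volume (Icc u (u + l) \ Ω) ≤ ENNReal.ofReal (1/8 * l))
    (G : ℝ → ℂ) (hG : Measurable G)
    (hE : ∀ c : ℝ, ∫⁻ z in Ico c (c + 3/4 * l), ‖phi Ω L z - G z‖ₑ ≤ ENNReal.ofReal (l^2/1000))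
    (τ : ℝ) (hτ : ∀ x, ‖G (x + τ) - G x‖ ≤ l / 1000) (a : ℝ) (ha : a ∈ L) :
    ∃ b ∈ L, |a + τ - b| ≤ l / 32 := by
  by_contra hcon
  push Not at hcon
  have hEm : AEMeasurable (fun z => ‖phi Ω L z - G z‖ₑ) :=
    ((phi_aemeas hΩ hL).sub hG.aemeasurable).enorm
  have hq : Measure.QuasiMeasurePreserving (fun x : ℝ => x + τ) volume volume :=
    (measurePreserving_add_right volume τ).quasiMeasurePreserving
  have hEm' : AEMeasurable (fun z => ‖phi Ω L (z + τ) - G (z + τ)‖ₑ) :=
    hEm.comp_quasiMeasurePreserving hq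
  set A : Set ℝ := Ico (u + a) (u + a + 3/4 * l) ∩ {z | z - a ∈ Ω} with hA
  have hAm : MeasurableSet A := measurableSet_Ico.inter ((measurable_id.sub_const _) hΩ)
  -- lower bound of the measure of A
  have hAv : ENNReal.ofReal (5/8 * l) ≤ volume A := by
    have tr : volume {x | x - a ∈ Icc u (u + l) \ Ω} ≤ ENNReal.ofReal (1/8 * l) := by
      have : {x | x - a ∈ Icc u (u + l) \ Ω} = (fun x => x + (-a)) ⁻¹' (Icc u (u + l) \ Ω) := by
        ext x; simp [sub_eq_add_neg]
      rw [this, measure_preimage_add_right]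
      exact hκ
    have h1 : Ico (u + a) (u + a + 3/4 * l) ⊆ A ∪ {x | x - a ∈ Icc u (u + l) \ Ω} := by
      intro x hx
      by_cases hxa : x - a ∈ Ω
      · exact Or.inl ⟨hx, hxa⟩
      · refine Or.inr ⟨?_, hxa⟩
        rw [mem_Ico] at hx
        rw [mem_Icc]
        constructor <;> linarith
    have h2 := (measure_mono h1).trans ((measure_union_le _ _).trans (add_le_add le_rfl tr))
    rw [Real.volume_Ico] at h2
    have h3 : ENNReal.ofReal (u + a + 3/4 * l - (u + a)) = ENNReal.ofReal (5/8 * l) + ENNReal.ofReal (1/8 * l) := by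
      rw [← ENNReal.ofReal_add (by positivity) (by positivity)]
      congr 1; ring
    rw [h3] at h2
    exact (ENNReal.add_le_add_iff_right ENNReal.ofReal_ne_top).1 h2
  -- pointwise bound
  have hp : ∀ᵐ z : ℝ, z ∈ A → ENNReal.ofReal (l / 32) ≤
      ‖phi Ω L (z + τ) - G (z + τ)‖ₑ + (ENNReal.ofReal (l / 1000) + ‖phi Ω L z - G z‖ₑ) := by
    filter_upwards [phi_hasSum hL, hq.ae (phi_hasSum hL), hq.ae hL.2] with z h1 h2 h3 hz
    have e1 : phi Ω L z = ((z - a : ℝ) : ℂ) := h1.2 a ha hz.2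
    obtain ⟨b, ⟨hb, hb'⟩, -⟩ := h3
    have e2 : phi Ω L (z + τ) = ((z + τ - b : ℝ) : ℂ) := h2.2 b hb hb'
    have h4 := hcon b hb
    have e3 : ‖phi Ω L (z + τ) - phi Ω L z‖ = |a + τ - b| := by
      rw [e1, e2, ← Complex.ofReal_sub, Complex.norm_real, Real.norm_eq_abs]
      congr 1; ring
    have h5 : ‖phi Ω L (z + τ) - phi Ω L z‖ ≤ ‖phi Ω L (z + τ) - G (z + τ)‖ + (l / 1000 + ‖phi Ω L z - G z‖) := by
      have : phi Ω L (z + τ) - phi Ω L z = (phi Ω L (z + τ) - G (z + τ)) + ((G (z + τ) - G z) - (phi Ω L z - G z)) := by ring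
      rw [this]
      refine (norm_add_le _ _).trans ?_
      have := norm_sub_le (G (z + τ) - G z) (phi Ω L z - G z)
      have := hτ z
      linarith
    rw [e3] at h5
    have h6 : l / 32 ≤ ‖phi Ω L (z + τ) - G (z + τ)‖ + (l / 1000 + ‖phi Ω L z - G z‖) := h4.le.trans h5
    have h7 := ENNReal.ofReal_le_ofReal h6
    rw [ENNReal.ofReal_add (norm_nonneg _) (by positivity), ENNReal.ofReal_add (by positivity) (norm_nonneg _),
      ofReal_norm, ofReal_norm] at h7
    exact h7
  -- integrate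
  have hI : ENNReal.ofReal (l / 32) * volume A ≤
      ENNReal.ofReal (l^2/1000) + (ENNReal.ofReal (l/1000) * ENNReal.ofReal (3/4 * l) + ENNReal.ofReal (l^2/1000)) := by
    calc ENNReal.ofReal (l / 32) * volume A = ∫⁻ _ in A, ENNReal.ofReal (l / 32) := by
          rw [setLIntegral_const]
      _ ≤ ∫⁻ z in A, (‖phi Ω L (z + τ) - G (z + τ)‖ₑ + (ENNReal.ofReal (l / 1000) + ‖phi Ω L z - G z‖ₑ)) :=
          lintegral_mono_ae ((ae_restrict_iff' hAm).2 hp)
      _ ≤ ∫⁻ z in Ico (u + a) (u + a + 3/4 * l), (‖phi Ω L (z + τ) - G (z + τ)‖ₑ + (ENNReal.ofReal (l / 1000) + ‖phi Ω L z - G z‖ₑ)) :=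
          lintegral_mono_set inter_subset_left
      _ = (∫⁻ z in Ico (u + a) (u + a + 3/4 * l), ‖phi Ω L (z + τ) - G (z + τ)‖ₑ) +
          ((∫⁻ z in Ico (u + a) (u + a + 3/4 * l), ENNReal.ofReal (l / 1000)) +
            ∫⁻ z in Ico (u + a) (u + a + 3/4 * l), ‖phi Ω L z - G z‖ₑ) := by
          rw [lintegral_add_left' hEm'.restrict, lintegral_add_left' aemeasurable_const]
      _ ≤ _ := by
          refine add_le_add ?_ (add_le_add ?_ (hE _))
          · refine le_trans (le_of_eq ?_) (hE (u + a + τ))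
            symm
            rw [← lintegral_indicator measurableSet_Ico, ← lintegral_indicator measurableSet_Ico,
              ← lintegral_add_right_eq_self _ τ]
            refine lintegral_congr fun y => ?_
            simp only [indicator, mem_Ico]
            have : (u + a + τ ≤ y + τ ∧ y + τ < u + a + τ + 3/4 * l) ↔ (u + a ≤ y ∧ y < u + a + 3/4 * l) := by
              constructor <;> rintro ⟨h1, h2⟩ <;> constructor <;> linarith
            simp only [this]
          · rw [setLIntegral_const, Real.volume_Ico]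
            refine le_of_eq ?_
            congr 2; ring
  have hJ : ENNReal.ofReal (l / 32) * ENNReal.ofReal (5/8 * l) ≤
      ENNReal.ofReal (l^2/1000) + (ENNReal.ofReal (l/1000) * ENNReal.ofReal (3/4 * l) + ENNReal.ofReal (l^2/1000)) :=
    (mul_le_mul' le_rfl hAv).trans hI
  rw [← ENNReal.ofReal_mul (by positivity), ← ENNReal.ofReal_mul (by positivity),
    ← ENNReal.ofReal_add (by positivity) (by positivity), ← ENNReal.ofReal_add (by positivity) (by positivity),
    ENNReal.ofReal_le_ofReal_iff (by positivity)] at hJ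
  nlinarith [sq_nonneg l, mul_pos hl hl]

theorem within_of_detect {L : Set ℝ} (l : ℝ) (_hl : 0 < l)
    (hsep : ∀ a ∈ L, ∀ b ∈ L, a < b → 3 / 4 * l ≤ b - a) (τ : ℝ)
    (h1 : ∀ a ∈ L, ∃ b ∈ L, |a + τ - b| ≤ l / 32) (h2 : ∀ a ∈ L, ∃ b ∈ L, |a + -τ - b| ≤ l / 32) :
    Within (l / 32) L {x | x - τ ∈ L} := by
  have huniq : ∀ a ∈ L, ∀ b ∈ L, |a - b| ≤ l / 16 → a = b := by
    intro a ha b hb hab
    rw [abs_le] at hab
    rcases lt_trichotomy a b with h | h | h
    · have := hsep a ha b hb h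
      linarith
    · exact h
    · have := hsep b hb a ha h
      linarith
  choose! p hp hp' using h2
  let F : L → {x | x - τ ∈ L} := fun a => ⟨p a + τ, by
    show p a + τ - τ ∈ L
    rw [add_sub_cancel_right]; exact hp a a.2⟩
  have hF : Function.Bijective F := by
    constructor
    · intro a a' h
      have h3 : p a + τ = p a' + τ := congrArg Subtype.val h
      have h4 := hp' a a.2
      have h5 := hp' a' a'.2
      refine Subtype.ext (huniq a a.2 a' a'.2 ?_)
      rw [abs_le] at h4 h5 ⊢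
      constructor <;> linarith [h4.1, h4.2, h5.1, h5.2]
    · rintro ⟨x, hx⟩
      have hx' : x - τ ∈ L := hx
      obtain ⟨a, ha, ha'⟩ := h1 (x - τ) hx'
      refine ⟨⟨a, ha⟩, Subtype.ext ?_⟩
      show p a + τ = x
      have h4 := hp' a ha
      have := huniq (p a) (hp a ha) (x - τ) hx' (by
        rw [abs_le] at ha' h4 ⊢
        constructor <;> linarith [ha'.1, ha'.2, h4.1, h4.2])
      linarith
  refine ⟨Equiv.ofBijective F hF, fun a => ?_⟩
  have h4 := hp' a a.2
  show |p a + τ - a| ≤ l / 32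
  rw [abs_le] at h4 ⊢
  constructor <;> linarith [h4.1, h4.2]

end Pool.Agent.L5helper94.TA
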