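import Pool.Agent.L5helper94.TA.Main

open MeasureTheory Set

namespace Pool.Agent.Results.MP_793d1e_an.FiniteSecondMoment

open Pool.Agent.W703.TL (Tiles HasPeriodicStructure)

/-- Every translation set with which a Lebesgue measurable set of positive finite measure and of
finite second moment tiles the line at level one has a periodic structure. -/
theorem result (Ω : Set ℝ) (hΩ : NullMeasurableSet Ω) (h0 : 0 < volume Ω) (h1 : volume Ω < ⊤)
    (h2 : IntegrableOn (fun x : ℝ => x ^ 2) Ω) (Λ : Set ℝ) (hΛ : Tiles Ω Λ) :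
    HasPeriodicStructure Λ := by
  obtain ⟨Ω', -, hm, he⟩ := hΩ.exists_measurable_superset_ae_eq
  refine L5helper94.TA.main (Ω := Ω') hm ?_ ?_ ?_ ?_
  · rwa [measure_congr he]
  · rwa [measure_congr he]
  · exact h2.congr_set_ae he
  · refine ⟨hΛ.1, ?_⟩
    have : Countable Λ := hΛ.1.to_subtype
    have h3 : ∀ᵐ x : ℝ, ∀ l : Λ, (x - (l : ℝ) ∈ Ω' ↔ x - (l : ℝ) ∈ Ω) := by
      refine ae_all_iff.2 fun l => ?_
      have hq : Measure.QuasiMeasurePreserving (fun x : ℝ => x + (-(l : ℝ))) volume volume :=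
        (measurePreserving_add_right volume (-(l : ℝ))).quasiMeasurePreserving
      have h4 := hq.ae (show ∀ᵐ x : ℝ, (x ∈ Ω' ↔ x ∈ Ω) from he.mem_iff)
      filter_upwards [h4] with x hx
      exact hx
    filter_upwards [hΛ.2, h3] with x hx hx'
    obtain ⟨l, ⟨hl, hl'⟩, hu⟩ := hx
    refine ⟨l, ⟨hl, (hx' ⟨l, hl⟩).2 hl'⟩, fun y hy => ?_⟩
    exact hu y ⟨hy.1, (hx' ⟨y, hy.1⟩).1 hy.2⟩

end Pool.Agent.Results.MP_793d1e_an.FiniteSecondMoment
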