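import Pool.Agent.L5helper94.TA.Bessel
open MeasureTheory Set Filter Topology FourierTransform
open scoped ENNReal Real Convolution ComplexConjugate

namespace Pool.Agent.L5helper94.TA

theorem supp_facts (q : ℝ → ℂ) (hc : Continuous q) (M B : ℝ) (hB : 0 ≤ B)
    (hM : ∀ x, ‖q x‖ ≤ M) (hs : ∀ x, B < |x| → q x = 0) :
    Integrable q ∧ Integrable (fun x => ‖q x‖ ^ 2) ∧ ∫ x, ‖q x‖ ^ 2 ≤ 2 * B * M ^ 2 := by
  have hcs : HasCompactSupport q := by
    refine HasCompactSupport.intro (isCompact_Icc (a := -B) (b := B)) fun x hx => hs x ?_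
    by_contra hcon
    exact hx (mem_Icc.2 (abs_le.1 (not_lt.1 hcon)))
  have h1 : Integrable q := hc.integrable_of_hasCompactSupport hcs
  have hcs2 : HasCompactSupport (fun x => ‖q x‖ ^ 2) := by
    refine HasCompactSupport.intro (isCompact_Icc (a := -B) (b := B)) fun x hx => ?_
    rw [hs x, norm_zero, zero_pow two_ne_zero]
    by_contra hcon
    exact hx (mem_Icc.2 (abs_le.1 (not_lt.1 hcon)))
  have h2 : Integrable (fun x => ‖q x‖ ^ 2) :=
    ((continuous_norm.comp hc).pow 2).integrable_of_hasCompactSupport hcs2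
  refine ⟨h1, h2, ?_⟩
  have h3 : ∀ x, ‖q x‖ ^ 2 ≤ (Icc (-B) B).indicator (fun _ => M ^ 2) x := by
    intro x
    by_cases hx : x ∈ Icc (-B) B
    · rw [indicator_of_mem hx]
      have := hM x
      gcongr
    · rw [indicator_of_notMem hx, hs x, norm_zero, zero_pow two_ne_zero]
      by_contra hcon
      exact hx (mem_Icc.2 (abs_le.1 (not_lt.1 hcon)))
  have h4 : Integrable ((Icc (-B) B).indicator (fun _ : ℝ => M ^ 2)) := by
    rw [integrable_indicator_iff measurableSet_Icc]
    exact integrableOn_const (by rw [Real.volume_Icc]; exact ENNReal.ofReal_ne_top)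
  refine (integral_mono h2 h4 h3).trans (le_of_eq ?_)
  rw [integral_indicator measurableSet_Icc, setIntegral_const, measureReal_def, Real.volume_Icc,
    ENNReal.toReal_ofReal (by linarith)]
  simp only [smul_eq_mul]
  ring

/-- `q` is Lipschitz with constant `K` and vanishes outside `[-B, B]`. -/
def LC (K B : ℝ) (q : ℝ → ℂ) : Prop :=
  (∀ x y, ‖q x - q y‖ ≤ K * |x - y|) ∧ ∀ x, B < |x| → q x = 0

theorem cont_of_lip {K : ℝ} {q : ℝ → ℂ} (h : ∀ x y, ‖q x - q y‖ ≤ K * |x - y|) : Continuous q := by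
  have : LipschitzWith (Real.toNNReal K) q := by
    refine LipschitzWith.of_dist_le_mul fun x y => ?_
    rw [dist_eq_norm, Real.dist_eq]
    refine (h x y).trans ?_
    exact mul_le_mul_of_nonneg_right (Real.le_coe_toNNReal K) (abs_nonneg _)
  exact this.continuous

theorem fourier_cont {q : ℝ → ℂ} (hq : Integrable q) : Continuous (𝓕 q) :=
  VectorFourier.fourierIntegral_continuous (μ := (volume : Measure ℝ)) (f := q)
      Real.continuous_fourierChar (L := innerₗ ℝ) continuous_inner hq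

theorem fourier_shift (q : ℝ → ℂ) (h w : ℝ) :
    𝓕 (fun x => q (x + h)) w = Complex.exp (2 * π * h * w * Complex.I) * 𝓕 q w := by
  rw [Real.fourier_real_eq_integral_exp_smul, Real.fourier_real_eq_integral_exp_smul,
    ← integral_const_mul]
  rw [← integral_add_right_eq_self (fun x => Complex.exp (2 * π * h * w * Complex.I) *
    (Complex.exp (((-2 * π * x * w : ℝ) : ℂ) * Complex.I) • q x)) h]
  refine integral_congr_ae (Eventually.of_forall fun v => ?_)
  simp only [smul_eq_mul]
  rw [← mul_assoc, ← Complex.exp_add]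
  congr 2
  push_cast
  ring

theorem fourier_deriv_bound {K B : ℝ} (hB : 0 ≤ B) {q : ℝ → ℂ} (h : LC K B q) :
    ∫⁻ w, ENNReal.ofReal ((2 * π * |w|) ^ 2 * ‖𝓕 q w‖ ^ 2) ≤ ENNReal.ofReal (K ^ 2 * (2 * B + 2)) := by
  have hc := cont_of_lip h.1
  have hbd : ∃ M, ∀ x, ‖q x‖ ≤ M := by
    have hcs : HasCompactSupport q := by
      refine HasCompactSupport.intro (isCompact_Icc (a := -B) (b := B)) fun x hx => h.2 x ?_
      by_contra hcon
      exact hx (mem_Icc.2 (abs_le.1 (not_lt.1 hcon)))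
    exact hc.bounded_above_of_compact_support hcs
  obtain ⟨M, hM⟩ := hbd
  obtain ⟨hi, -, -⟩ := supp_facts q hc M B hB hM h.2
  have hF := fourier_cont hi
  have key : ∀ t : ℝ, 0 < t → t ≤ 1 →
      ∫⁻ w : ℝ, ENNReal.ofReal ((‖Complex.exp (2 * π * t * w * Complex.I) - 1‖ / t) ^ 2 * ‖𝓕 q w‖ ^ 2)
        ≤ ENNReal.ofReal (K ^ 2 * (2 * B + 2)) := by
    intro t ht ht1
    let p : ℝ → ℂ := fun x => (t⁻¹ : ℂ) * (q (x + t) - q x)
    have hpc : Continuous p := by
      refine continuous_const.mul ?_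
      exact (hc.comp (continuous_add_const t)).sub hc
    have hpn : ∀ x, ‖p x‖ ≤ K := by
      intro x
      simp only [p]
      rw [norm_mul, norm_inv, Complex.norm_real, Real.norm_eq_abs, abs_of_pos ht]
      have := h.1 (x + t) x
      rw [add_sub_cancel_left, abs_of_pos ht] at this
      rw [inv_mul_le_iff₀ ht]
      linarith
    have hps : ∀ x, B + t < |x| → p x = 0 := by
      intro x hx
      simp only [p]
      have h1 : q x = 0 := h.2 x (by linarith)
      have h2 : q (x + t) = 0 := by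
        refine h.2 _ ?_
        have := abs_sub_abs_le_abs_sub x (-t)
        rw [abs_neg, abs_of_pos ht, sub_neg_eq_add] at this
        linarith
      rw [h1, h2, sub_zero, mul_zero]
    obtain ⟨hpi, hpi2, hpb⟩ := supp_facts p hpc K (B + t) (by linarith) hpn hps
    have hFp : ∀ w : ℝ, 𝓕 p w = (t⁻¹ : ℂ) * ((Complex.exp (2 * π * t * w * Complex.I) - 1) * 𝓕 q w) := by
      intro w
      have e1 : 𝓕 (fun x => q (x + t)) w = Complex.exp (2 * π * t * w * Complex.I) * 𝓕 q w :=
        fourier_shift q t w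
      have hi1 : Integrable (fun x => q (x + t)) := hi.comp_add_right t
      have conv1 : Integrable (fun v : ℝ => Complex.exp (((-2 * π * v * w : ℝ) : ℂ) * Complex.I) • q (v + t)) := by
        have := (Real.fourierIntegral_convergent_iff (μ := (volume : Measure ℝ)) (f := fun x => q (x + t)) w).2 hi1
        refine this.congr (Eventually.of_forall fun v => ?_)
        simp only [Circle.smul_def, Real.fourierChar_apply]
        congr 2
        simp only [RCLike.inner_apply, conj_trivial]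
        push_cast; ring
      have conv2 : Integrable (fun v : ℝ => Complex.exp (((-2 * π * v * w : ℝ) : ℂ) * Complex.I) • q v) := by
        have := (Real.fourierIntegral_convergent_iff (μ := (volume : Measure ℝ)) (f := q) w).2 hi
        refine this.congr (Eventually.of_forall fun v => ?_)
        simp only [Circle.smul_def, Real.fourierChar_apply]
        congr 2
        simp only [RCLike.inner_apply, conj_trivial]
        push_cast; ring
      rw [sub_mul, one_mul, ← e1, Real.fourier_real_eq_integral_exp_smul,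
        Real.fourier_real_eq_integral_exp_smul, Real.fourier_real_eq_integral_exp_smul,
        ← integral_sub conv1 conv2, ← integral_const_mul]
      refine integral_congr_ae (Eventually.of_forall fun v => ?_)
      simp only [smul_eq_mul, p]
      ring
    have hb := bessel p hpi hpi2
    have e2 : ∀ w, ‖𝓕 p w‖ ^ 2 = (‖Complex.exp (2 * π * t * w * Complex.I) - 1‖ / t) ^ 2 * ‖𝓕 q w‖ ^ 2 := by
      intro w
      rw [hFp, norm_mul, norm_mul, norm_inv, Complex.norm_real, Real.norm_eq_abs, abs_of_pos ht]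
      ring
    simp_rw [e2] at hb
    refine hb.trans (ENNReal.ofReal_le_ofReal (hpb.trans ?_))
    nlinarith [sq_nonneg K]
  refine fatou_le (f := fun n w => ENNReal.ofReal
    ((‖Complex.exp (2 * π * ((1 / ((n:ℝ) + 1) : ℝ) : ℂ) * w * Complex.I) - 1‖ / (1 / ((n:ℝ) + 1))) ^ 2 * ‖𝓕 q w‖ ^ 2)) ?_ ?_ ?_
  · intro n
    refine Measurable.ennreal_ofReal ?_
    refine Continuous.measurable ?_
    refine Continuous.mul ?_ ((continuous_norm.comp hF).pow 2)
    refine Continuous.pow (Continuous.div_const ?_ _) 2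
    fun_prop
  · intro w
    refine ENNReal.tendsto_ofReal ?_
    refine Tendsto.mul_const _ ?_
    refine Tendsto.pow ?_ 2
    have hd : HasDerivAt (fun t : ℝ => Complex.exp (2 * π * (t : ℂ) * w * Complex.I)) (2 * π * w * Complex.I) 0 := by
      have h1 : HasDerivAt (fun t : ℝ => 2 * π * (t : ℂ) * w * Complex.I) (2 * π * w * Complex.I) 0 := by
        have h2 : HasDerivAt (fun t : ℝ => ((t : ℝ) : ℂ)) 1 0 := Complex.ofRealCLM.hasDerivAt
        have h3 := h2.const_mul (2 * π * w * Complex.I)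
        rw [mul_one] at h3
        refine h3.congr_of_eventuallyEq (Eventually.of_forall fun t => ?_)
        simp only
        ring
      have h4 := h1.cexp
      simpa using h4
    have h0 : Tendsto (fun n : ℕ => 1 / ((n:ℝ) + 1)) atTop (𝓝[≠] 0) := by
      refine tendsto_nhdsWithin_iff.2 ⟨tendsto_one_div_add_atTop_nhds_zero_nat, Eventually.of_forall fun n => ?_⟩
      have : (0:ℝ) < 1 / ((n:ℝ) + 1) := by positivity
      exact this.ne'
    have h5 := hd.tendsto_slope_zero.norm.comp h0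
    have h6 : ‖(2 * π * w * Complex.I : ℂ)‖ = 2 * π * |w| := by
      rw [norm_mul, norm_mul, norm_mul, Complex.norm_I, mul_one, Complex.norm_real, Complex.norm_real,
        Real.norm_eq_abs, Real.norm_eq_abs, abs_of_pos Real.pi_pos]
      norm_num
    rw [h6] at h5
    refine h5.congr fun n => ?_
    simp only [Function.comp_apply, zero_add, norm_smul]
    have hp : (0:ℝ) < 1 / ((n:ℝ) + 1) := by positivity
    rw [norm_inv, Real.norm_eq_abs, abs_of_pos hp]
    simp only [Complex.ofReal_zero, mul_zero, zero_mul, Complex.exp_zero]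
    rw [div_eq_mul_inv (‖_ - _‖), mul_comm]
  · intro n
    have hp : (0:ℝ) < 1 / ((n:ℝ) + 1) := by positivity
    refine key _ hp ?_
    have hn : (0:ℝ) ≤ n := Nat.cast_nonneg n
    rw [div_le_one (by linarith)]
    linarith

theorem integral_weight (a : ℝ) (ha : 0 < a) :
    Integrable (fun w : ℝ => (a ^ 2 + w ^ 2)⁻¹) ∧ ∫ w : ℝ, (a ^ 2 + w ^ 2)⁻¹ = π / a := by
  have e : ∀ w : ℝ, (a ^ 2 + w ^ 2)⁻¹ = (a ^ 2)⁻¹ * (1 + (w / a) ^ 2)⁻¹ := by
    intro w
    rw [← mul_inv]
    congr 1
    field_simp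
  have h1 : Integrable (fun w : ℝ => (1 + (w / a) ^ 2)⁻¹) :=
    (integrable_inv_one_add_sq).comp_div ha.ne'
  constructor
  · simp_rw [e]
    exact h1.const_mul _
  · simp_rw [e]
    rw [integral_const_mul, Measure.integral_comp_div (fun x : ℝ => (1 + x ^ 2)⁻¹) a,
      integral_univ_inv_one_add_sq, abs_of_pos ha, smul_eq_mul]
    field_simp

theorem l1_bound {K B δ : ℝ} (hB : 0 ≤ B) (hδ : 0 < δ) {q : ℝ → ℂ} (h : LC K B q)
    (hq : ∀ x, ‖q x‖ ≤ δ) :
    Integrable (𝓕 q) ∧ ∫ w, ‖𝓕 q w‖ ≤ (2 * B + K ^ 2 * (2 * B + 2) + 4) * Real.sqrt δ := by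
  have hc := cont_of_lip h.1
  obtain ⟨hi, hi2, hb2⟩ := supp_facts q hc δ B hB hq h.2
  have hF := fourier_cont hi
  have h1 : ∫⁻ w, ENNReal.ofReal (‖𝓕 q w‖ ^ 2) ≤ ENNReal.ofReal (2 * B * δ ^ 2) :=
    (bessel q hi hi2).trans (ENNReal.ofReal_le_ofReal hb2)
  have h2 := fourier_deriv_bound hB h
  set s := Real.sqrt δ with hs
  have hs0 : 0 < s := Real.sqrt_pos.2 hδ
  have hss : s * s = δ := Real.mul_self_sqrt hδ.le
  obtain ⟨hw1, hw2⟩ := integral_weight (1 / δ) (by positivity)
  have hpt : ∀ w, ‖𝓕 q w‖ ≤ (s / δ ^ 2 * ‖𝓕 q w‖ ^ 2 + s * ((2 * π * |w|) ^ 2 * ‖𝓕 q w‖ ^ 2))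
      + s⁻¹ * ((1 / δ) ^ 2 + w ^ 2)⁻¹ := by
    intro w
    set y := ‖𝓕 q w‖ with hy
    set z := (1 / δ) ^ 2 + w ^ 2 with hz
    have hz0 : 0 < z := by positivity
    have h3 : y ≤ s * z * y ^ 2 + s⁻¹ * z⁻¹ := by
      have h4 : 0 ≤ (s * z * y - 1) ^ 2 := sq_nonneg _
      have h5 : 0 < s * z := by positivity
      have h6 : s⁻¹ * z⁻¹ = (s * z)⁻¹ := by rw [mul_inv]
      rw [h6]
      have h7 : s * z * y ^ 2 + (s * z)⁻¹ - y = ((s * z * y - 1) ^ 2 + s * z * y) / (s * z) := by
        field_simp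
        ring
      have h8 : 0 ≤ ((s * z * y - 1) ^ 2 + s * z * y) / (s * z) := by
        have : 0 ≤ y := norm_nonneg _
        positivity
      linarith
    have h9 : s * z * y ^ 2 ≤ s / δ ^ 2 * y ^ 2 + s * ((2 * π * |w|) ^ 2 * y ^ 2) := by
      have e1 : s * z * y ^ 2 = s / δ ^ 2 * y ^ 2 + s * (w ^ 2 * y ^ 2) := by
        rw [hz]; field_simp
      rw [e1]
      have h10 : w ^ 2 ≤ (2 * π * |w|) ^ 2 := by
        rw [mul_pow, sq_abs]
        have : 1 ≤ (2 * π) ^ 2 := by nlinarith [Real.pi_gt_three]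
        nlinarith [sq_nonneg w]
      gcongr
    linarith
  have h3 : ∫⁻ w, ENNReal.ofReal ‖𝓕 q w‖ ≤
      ENNReal.ofReal ((2 * B + K ^ 2 * (2 * B + 2) + 4) * s) := by
    calc ∫⁻ w, ENNReal.ofReal ‖𝓕 q w‖
        ≤ ∫⁻ w, ((ENNReal.ofReal (s / δ ^ 2) * ENNReal.ofReal (‖𝓕 q w‖ ^ 2)
          + ENNReal.ofReal s * ENNReal.ofReal ((2 * π * |w|) ^ 2 * ‖𝓕 q w‖ ^ 2))
          + ENNReal.ofReal s⁻¹ * ENNReal.ofReal (((1 / δ) ^ 2 + w ^ 2)⁻¹)) := by
          refine lintegral_mono fun w => ?_
          rw [← ENNReal.ofReal_mul (by positivity), ← ENNReal.ofReal_mul (by positivity),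
            ← ENNReal.ofReal_mul (by positivity), ← ENNReal.ofReal_add (by positivity) (by positivity),
            ← ENNReal.ofReal_add (by positivity) (by positivity)]
          exact ENNReal.ofReal_le_ofReal (hpt w)
      _ = (ENNReal.ofReal (s / δ ^ 2) * ∫⁻ w, ENNReal.ofReal (‖𝓕 q w‖ ^ 2))
          + (ENNReal.ofReal s * ∫⁻ w, ENNReal.ofReal ((2 * π * |w|) ^ 2 * ‖𝓕 q w‖ ^ 2))
          + (ENNReal.ofReal s⁻¹ * ∫⁻ w, ENNReal.ofReal (((1 / δ) ^ 2 + w ^ 2)⁻¹)) := by
          have m1 : Measurable fun w => ENNReal.ofReal (‖𝓕 q w‖ ^ 2) :=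
            ((continuous_norm.comp hF).pow 2).measurable.ennreal_ofReal
          have m2 : Measurable fun w : ℝ => ENNReal.ofReal ((2 * π * |w|) ^ 2 * ‖𝓕 q w‖ ^ 2) := by
            refine Measurable.ennreal_ofReal (Continuous.measurable ?_)
            exact (by fun_prop : Continuous fun w : ℝ => (2 * π * |w|) ^ 2).mul ((continuous_norm.comp hF).pow 2)
          have m3 : Measurable fun w : ℝ => ENNReal.ofReal (((1 / δ) ^ 2 + w ^ 2)⁻¹) := by
            refine Measurable.ennreal_ofReal ?_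
            exact (by fun_prop : Measurable fun w : ℝ => ((1 / δ) ^ 2 + w ^ 2)⁻¹)
          have n1 : Measurable fun w => ENNReal.ofReal (s / δ ^ 2) * ENNReal.ofReal (‖𝓕 q w‖ ^ 2) :=
            m1.const_mul _
          have n2 : Measurable fun w : ℝ => ENNReal.ofReal s * ENNReal.ofReal ((2 * π * |w|) ^ 2 * ‖𝓕 q w‖ ^ 2) :=
            m2.const_mul _
          have n12 : Measurable fun w : ℝ => ENNReal.ofReal (s / δ ^ 2) * ENNReal.ofReal (‖𝓕 q w‖ ^ 2)
            + ENNReal.ofReal s * ENNReal.ofReal ((2 * π * |w|) ^ 2 * ‖𝓕 q w‖ ^ 2) := n1.add n2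
          rw [lintegral_add_left n12, lintegral_add_left n1, lintegral_const_mul _ m1,
            lintegral_const_mul _ m2, lintegral_const_mul _ m3]
      _ ≤ (ENNReal.ofReal (s / δ ^ 2) * ENNReal.ofReal (2 * B * δ ^ 2))
          + (ENNReal.ofReal s * ENNReal.ofReal (K ^ 2 * (2 * B + 2)))
          + (ENNReal.ofReal s⁻¹ * ENNReal.ofReal (π / (1 / δ))) := by
          gcongr
          rw [← hw2, ofReal_integral_eq_lintegral_ofReal hw1 (Eventually.of_forall fun w => by positivity)]
      _ ≤ ENNReal.ofReal ((2 * B + K ^ 2 * (2 * B + 2) + 4) * s) := by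
          rw [← ENNReal.ofReal_mul (by positivity), ← ENNReal.ofReal_mul (by positivity),
            ← ENNReal.ofReal_mul (by positivity), ← ENNReal.ofReal_add (by positivity) (by positivity),
            ← ENNReal.ofReal_add (by positivity) (by positivity)]
          refine ENNReal.ofReal_le_ofReal ?_
          have e1 : s / δ ^ 2 * (2 * B * δ ^ 2) = 2 * B * s := by field_simp
          have e2 : s⁻¹ * (π / (1 / δ)) = π * s := by
            rw [← hss]; field_simp
          rw [e1, e2]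
          have := Real.pi_le_four
          nlinarith
  have hint : Integrable (𝓕 q) := by
    refine ⟨hF.aestronglyMeasurable, ?_⟩
    rw [hasFiniteIntegral_iff_norm]
    exact lt_of_le_of_lt h3 ENNReal.ofReal_lt_top
  refine ⟨hint, ?_⟩
  rw [integral_eq_lintegral_of_nonneg_ae (Eventually.of_forall fun _ => norm_nonneg _)
    hint.norm.aestronglyMeasurable]
  refine ENNReal.toReal_le_of_le_ofReal (by positivity) h3

end Pool.Agent.L5helper94.TA
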