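import Pool.Agent.L5helper94.TA.Detect
open MeasureTheory Set Filter Topology FourierTransform
open scoped ENNReal Real Convolution ComplexConjugate
open Pool.Agent.W703.TL (Tiles Within HasPeriodicStructure)

namespace Pool.Agent.L5helper94.TA

theorem main {Ω L : Set ℝ} (hΩ : MeasurableSet Ω) (h0 : 0 < volume Ω) (h1 : volume Ω < ∞)
    (h2 : IntegrableOn (fun x : ℝ => x ^ 2) Ω) (hL : Tiles Ω L) : HasPeriodicStructure L := by
  obtain ⟨u, l, hl, hκ⟩ := Pool.Agent.W703.TL.exists_dense_interval Ω hΩ h0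
  have hsep : ∀ a ∈ L, ∀ b ∈ L, a < b → 3 / 4 * l ≤ b - a := fun a ha b hb hab =>
    tiles_sep Ω L hΩ hL u l hl hκ a b ha hb hab
  set f : ℝ → ℂ := Ω.indicator (fun _ => (1 : ℂ)) with hf
  set g : ℝ → ℂ := Ω.indicator (fun t : ℝ => (t : ℂ)) with hg
  have hfm : Measurable f := measurable_const.indicator hΩ
  have hgm : Measurable g := Complex.measurable_ofReal.indicator hΩ
  have hfi : Integrable f := (integrable_indicator_iff hΩ).2 (integrableOn_const h1.ne)
  have hgf : (fun t : ℝ => (t : ℂ) * f t) = g := by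
    ext t
    by_cases ht : t ∈ Ω
    · rw [hf, hg, indicator_of_mem ht, indicator_of_mem ht, mul_one]
    · rw [hf, hg, indicator_of_notMem ht, indicator_of_notMem ht, mul_zero]
  have hgi : Integrable g := by
    rw [hg, integrable_indicator_iff hΩ]
    have : IntegrableOn (fun x : ℝ => 1 + x ^ 2) Ω := (integrableOn_const h1.ne).add h2
    refine Integrable.mono' this Complex.measurable_ofReal.aestronglyMeasurable
      (Eventually.of_forall fun x => ?_)
    rw [Complex.norm_real, Real.norm_eq_abs]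
    nlinarith [sq_nonneg (|x| - 1), sq_abs x, abs_nonneg x]
  have hqi : Integrable fun t : ℝ => (t : ℂ) * ((t : ℂ) * f t) := by
    have e : (fun t : ℝ => (t : ℂ) * ((t : ℂ) * f t)) = Ω.indicator (fun t : ℝ => ((t ^ 2 : ℝ) : ℂ)) := by
      ext t
      by_cases ht : t ∈ Ω
      · rw [hf, indicator_of_mem ht, indicator_of_mem ht, mul_one]
        push_cast; ring
      · rw [hf, indicator_of_notMem ht, indicator_of_notMem ht, mul_zero, mul_zero]
    rw [e, integrable_indicator_iff hΩ]
    exact h2.ofReal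
  have hfi' : Integrable fun t : ℝ => (t : ℂ) * f t := by rw [hgf]; exact hgi
  have hF0 : 𝓕 f 0 ≠ 0 := by
    rw [Real.fourier_eq']
    simp only [inner_zero_right, mul_zero, Complex.ofReal_zero, zero_mul, Complex.exp_zero, one_smul]
    rw [hf, integral_indicator hΩ]
    simp only [integral_const, MeasurableSet.univ, measureReal_restrict_apply, univ_inter]
    intro h
    have : (volume Ω).toReal = 0 := by
      simpa [Measure.real] using h
    rw [ENNReal.toReal_eq_zero_iff] at this
    rcases this with h | h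
    · exact h0.ne' h
    · exact h1.ne h
  -- choose r
  obtain ⟨ρ, hρ, hρ'⟩ := trans_cont g hgi (l ^ 2 / 1000) (by positivity)
  set r : ℝ := min ρ (3 / 4 * l) with hr
  have hr0 : 0 < r := lt_min hρ (by positivity)
  have hrs : r ≤ 3 / 4 * l := min_le_right _ _
  have hconv : ∀ x, ∫ t, f t * hh L r (x - t) = 1 := fun x =>
    conv_one hΩ hL hsep hr0 hrs h1.ne x
  have hap := ap_main f hfm hfi hfi' hqi hF0 (hh L r) (1 / r) (hh_meas hL r)
    (fun x => hh_bound hr0 L x) 1 hconv
  set G : ℝ → ℂ := fun x => ∫ t, g t * hh L r (x - t) with hG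
  have hap' : BAP G := by
    have : (fun x => ∫ t : ℝ, ((t : ℂ) * f t) * hh L r (x - t)) = G := by
      ext x
      rw [hG]
      simp only [← hgf]
    rw [← this]
    exact hap
  have hGm : Measurable G := by
    have h3 : StronglyMeasurable (fun p : ℝ × ℝ => g p.2 * hh L r (p.1 - p.2)) :=
      ((hgm.comp measurable_snd).mul ((hh_meas hL r).comp (measurable_fst.sub measurable_snd))).stronglyMeasurable
    exact h3.integral_prod_right'.measurable
  have hE : ∀ c : ℝ, ∫⁻ z in Ico c (c + 3/4 * l), ‖phi Ω L z - G z‖ₑ ≤ ENNReal.ofReal (l^2/1000) :=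
    fun c => lemmaD hL hsep hgm hgi hg hr0 hrs (l^2/1000) (by positivity)
      (fun s hs => hρ' s (hs.trans (min_le_left _ _))) c
  obtain ⟨τ, hτ, hτ'⟩ := hap'.exists_period (l / 1000) l (by positivity)
  have d1 : ∀ a ∈ L, ∃ b ∈ L, |a + τ - b| ≤ l / 32 := fun a ha =>
    detect hΩ hL u l hl hκ G hGm hE τ hτ' a ha
  have d2 : ∀ a ∈ L, ∃ b ∈ L, |a + -τ - b| ≤ l / 32 := fun a ha =>
    detect hΩ hL u l hl hκ G hGm hE (-τ) (fun x => by
      have := hτ' (x + -τ)
      rw [neg_add_cancel_right] at this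
      rw [norm_sub_rev]
      exact this) a ha
  refine Pool.Agent.W703.TL.almost_period Ω hΩ h0 u l hl hκ L hL τ ?_
    (within_of_detect l hl hsep τ d1 d2)
  rw [abs_of_pos (by linarith)]
  linarith

end Pool.Agent.L5helper94.TA
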