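import Pool.Agent.L5helper94.TA.Trans
open MeasureTheory Set Filter Topology FourierTransform
open scoped ENNReal Real Convolution ComplexConjugate

namespace Pool.Agent.L5helper94.TA

/-- Lipschitz with compact support -/
def LCp (q : ℝ → ℂ) : Prop := ∃ K B : ℝ, 0 ≤ K ∧ 0 ≤ B ∧ LC K B q

theorem LCp.cont {q : ℝ → ℂ} (h : LCp q) : Continuous q := by
  obtain ⟨K, B, -, -, h⟩ := h
  exact cont_of_lip h.1

theorem LCp.bdd {q : ℝ → ℂ} (h : LCp q) : ∃ M : ℝ, 0 < M ∧ ∀ x, ‖q x‖ ≤ M := by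
  have hc := h.cont
  obtain ⟨K, B, -, -, h⟩ := h
  have hcs : HasCompactSupport q := by
    refine HasCompactSupport.intro (isCompact_Icc (a := -B) (b := B)) fun x hx => h.2 x ?_
    by_contra hcon
    exact hx (mem_Icc.2 (abs_le.1 (not_lt.1 hcon)))
  obtain ⟨M, hM⟩ := hc.bounded_above_of_compact_support hcs
  exact ⟨max M 1, lt_max_of_lt_right one_pos, fun x => (hM x).trans (le_max_left _ _)⟩

theorem LCp.int {q : ℝ → ℂ} (h : LCp q) : Integrable q := by
  have hc := h.cont
  obtain ⟨M, -, hM⟩ := h.bdd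
  obtain ⟨K, B, -, hB, h⟩ := h
  exact (supp_facts q hc M B hB hM h.2).1

theorem LCp.intF {q : ℝ → ℂ} (h : LCp q) : Integrable (𝓕 q) := by
  obtain ⟨M, hM0, hM⟩ := h.bdd
  obtain ⟨K, B, -, hB, h⟩ := h
  exact (l1_bound hB hM0 h hM).1

theorem LCp.congr' {q r : ℝ → ℂ} (hq : LCp q) (h : q = r) : LCp r := h ▸ hq

theorem LCp.add {q r : ℝ → ℂ} (hq : LCp q) (hr : LCp r) : LCp (fun x => q x + r x) := by
  obtain ⟨K, B, hK, hB, h⟩ := hq
  obtain ⟨K', B', hK', hB', h'⟩ := hr
  refine ⟨K + K', max B B', by positivity, le_max_of_le_left hB, ?_, ?_⟩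
  · intro x y
    have e : q x + r x - (q y + r y) = (q x - q y) + (r x - r y) := by ring
    rw [e, add_mul]
    exact (norm_add_le _ _).trans (add_le_add (h.1 x y) (h'.1 x y))
  · intro x hx
    show q x + r x = 0
    rw [h.2 x (lt_of_le_of_lt (le_max_left _ _) hx), h'.2 x (lt_of_le_of_lt (le_max_right _ _) hx), add_zero]

theorem LCp.const_mul {q : ℝ → ℂ} (hq : LCp q) (c : ℂ) : LCp (fun x => c * q x) := by
  obtain ⟨K, B, hK, hB, h⟩ := hq
  refine ⟨‖c‖ * K, B, by positivity, hB, ?_, ?_⟩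
  · intro x y
    rw [← mul_sub, norm_mul, mul_assoc]
    exact mul_le_mul_of_nonneg_left (h.1 x y) (norm_nonneg _)
  · intro x hx
    show c * q x = 0
    rw [h.2 x hx, mul_zero]

theorem LCp.mul_lip {q g : ℝ → ℂ} (hq : LCp q) (L M : ℝ) (hL : 0 ≤ L) (hM : 0 ≤ M)
    (hg : ∀ x y, ‖g x - g y‖ ≤ L * |x - y|) (hgM : ∀ x, ‖g x‖ ≤ M) : LCp (fun x => q x * g x) := by
  obtain ⟨Q, hQ0, hQ⟩ := hq.bdd
  obtain ⟨K, B, hK, hB, h⟩ := hq
  refine ⟨Q * L + K * M, B, by positivity, hB, ?_, ?_⟩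
  · intro x y
    have e : q x * g x - q y * g y = q x * (g x - g y) + (q x - q y) * g y := by ring
    rw [e]
    refine (norm_add_le _ _).trans ?_
    rw [norm_mul, norm_mul]
    have h1 : ‖q x‖ * ‖g x - g y‖ ≤ Q * (L * |x - y|) :=
      mul_le_mul (hQ x) (hg x y) (norm_nonneg _) hQ0.le
    have h2 : ‖q x - q y‖ * ‖g y‖ ≤ (K * |x - y|) * M :=
      mul_le_mul (h.1 x y) (hgM y) (norm_nonneg _) (by positivity)
    linarith
  · intro x hx
    show q x * g x = 0
    rw [h.2 x hx, zero_mul]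

theorem LCp.re {q : ℝ → ℂ} (hq : LCp q) : LCp (fun x => (((q x).re : ℝ) : ℂ)) := by
  obtain ⟨K, B, hK, hB, h⟩ := hq
  refine ⟨K, B, hK, hB, ?_, ?_⟩
  · intro x y
    rw [← Complex.ofReal_sub, Complex.norm_real, Real.norm_eq_abs, ← Complex.sub_re]
    exact (Complex.abs_re_le_norm _).trans (h.1 x y)
  · intro x hx
    show (((q x).re : ℝ) : ℂ) = 0
    rw [h.2 x hx, Complex.zero_re, Complex.ofReal_zero]

theorem LCp.im {q : ℝ → ℂ} (hq : LCp q) : LCp (fun x => (((q x).im : ℝ) : ℂ)) := by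
  obtain ⟨K, B, hK, hB, h⟩ := hq
  refine ⟨K, B, hK, hB, ?_, ?_⟩
  · intro x y
    rw [← Complex.ofReal_sub, Complex.norm_real, Real.norm_eq_abs, ← Complex.sub_im]
    exact (Complex.abs_im_le_norm _).trans (h.1 x y)
  · intro x hx
    show (((q x).im : ℝ) : ℂ) = 0
    rw [h.2 x hx, Complex.zero_im, Complex.ofReal_zero]

theorem LCp.zero : LCp (fun _ => 0) :=
  ⟨0, 0, le_rfl, le_rfl, by intro x y; simp, by intro x _; rfl⟩

theorem LCp.sum {ι : Type*} (s : Finset ι) (q : ι → ℝ → ℂ) (h : ∀ i ∈ s, LCp (q i)) :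
    LCp (fun x => ∑ i ∈ s, q i x) := by
  classical
  induction s using Finset.induction_on with
  | empty => simpa using LCp.zero
  | insert a s ha ih =>
    simp only [Finset.sum_insert ha]
    exact (h a (Finset.mem_insert_self _ _)).add (ih fun i hi => h i (Finset.mem_insert_of_mem hi))

theorem fourier_add' {q r : ℝ → ℂ} (hq : Integrable q) (hr : Integrable r) (y : ℝ) :
    𝓕 (fun x => q x + r x) y = 𝓕 q y + 𝓕 r y := by
  have := VectorFourier.fourierIntegral_add (μ := (volume : Measure ℝ)) (f := q) (g := r)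
      Real.continuous_fourierChar (L := innerₗ ℝ) continuous_inner hq hr
  exact congrFun this y

theorem fourier_const_mul' (q : ℝ → ℂ) (c : ℂ) (y : ℝ) :
    𝓕 (fun x => c * q x) y = c * 𝓕 q y := by
  rw [Real.fourier_real_eq_integral_exp_smul, Real.fourier_real_eq_integral_exp_smul,
    ← integral_const_mul]
  refine integral_congr_ae (Eventually.of_forall fun v => ?_)
  simp only [smul_eq_mul]
  ring

/-- the convolution of `h` with the function whose Fourier transform is `q` -/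
noncomputable def AA (h q : ℝ → ℂ) (x : ℝ) : ℂ := ∫ y, 𝓕 q y * h (x + y)

section
variable {h : ℝ → ℂ} {D : ℝ} (hm : Measurable h) (hD : ∀ x, ‖h x‖ ≤ D)
include hm hD

theorem AA_int {u : ℝ → ℂ} (hu : Integrable u) (x : ℝ) : Integrable (fun y => u y * h (x + y)) := by
  refine hu.mul_bdd (c := D) ?_ (Eventually.of_forall fun y => hD _)
  exact (hm.comp (by fun_prop)).aestronglyMeasurable

omit hm in
theorem AA_norm {q : ℝ → ℂ} (hq : Integrable (𝓕 q)) (x : ℝ) : ‖AA h q x‖ ≤ D * ∫ y, ‖𝓕 q y‖ := by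
  unfold AA
  rw [← integral_const_mul]
  refine norm_integral_le_of_norm_le (hq.norm.const_mul D) (Eventually.of_forall fun y => ?_)
  rw [norm_mul, mul_comm]
  exact mul_le_mul_of_nonneg_right (hD _) (norm_nonneg _)

theorem AA_add {q r : ℝ → ℂ} (hq : LCp q) (hr : LCp r) (x : ℝ) :
    AA h (fun x => q x + r x) x = AA h q x + AA h r x := by
  unfold AA
  rw [← integral_add (AA_int hm hD hq.intF x) (AA_int hm hD hr.intF x)]
  refine integral_congr_ae (Eventually.of_forall fun y => ?_)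
  simp only
  rw [fourier_add' hq.int hr.int, add_mul]

omit hm hD in
theorem AA_const_mul (q : ℝ → ℂ) (c : ℂ) (x : ℝ) : AA h (fun x => c * q x) x = c * AA h q x := by
  unfold AA
  rw [← integral_const_mul]
  refine integral_congr_ae (Eventually.of_forall fun y => ?_)
  simp only
  rw [fourier_const_mul', mul_assoc]

omit hm hD in
theorem AA_zero' (x : ℝ) : AA h (fun _ => 0) x = 0 := by
  have := AA_const_mul (h := h) (fun _ => 0) 0 x
  simpa using this

theorem AA_sum {ι : Type*} (s : Finset ι) (q : ι → ℝ → ℂ) (hq : ∀ i ∈ s, LCp (q i)) (x : ℝ) :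
    AA h (fun x => ∑ i ∈ s, q i x) x = ∑ i ∈ s, AA h (q i) x := by
  classical
  induction s using Finset.induction_on with
  | empty => simpa using AA_zero' x
  | insert a s ha ih =>
    simp only [Finset.sum_insert ha]
    rw [AA_add hm hD (hq a (Finset.mem_insert_self _ _))
      (LCp.sum s q fun i hi => hq i (Finset.mem_insert_of_mem hi)),
      ih fun i hi => hq i (Finset.mem_insert_of_mem hi)]

omit hm hD in
theorem AA_shift (q : ℝ → ℂ) (η x : ℝ) :
    AA h (fun ξ : ℝ => Complex.exp (-(2 * π * ξ * η * Complex.I)) * q ξ) x = AA h q (x - η) := by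
  unfold AA
  rw [← integral_add_right_eq_self (fun y => 𝓕 q y * h (x - η + y)) η]
  refine integral_congr_ae (Eventually.of_forall fun y => ?_)
  simp only
  rw [fourier_exp_mul]
  congr 2
  ring

theorem AA_F {f : ℝ → ℂ} (hf : Integrable f) {c : ℂ} (hc : ∀ x, ∫ t, f t * h (x - t) = c)
    {r : ℝ → ℂ} (hr : LCp r) (x : ℝ) : AA h (fun ξ => r ξ * 𝓕 f ξ) x = c * r 0 := by
  have e0 : ∀ y, 𝓕 (fun ξ => r ξ * 𝓕 f ξ) y = ∫ s, 𝓕 r s * f (-(y - s)) := by
    intro y
    rw [fourier_swap f r hf hr.int y, ← integral_sub_right_eq_self _ y]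
    refine integral_congr_ae (Eventually.of_forall fun s => ?_)
    simp only
    rw [mul_comm]
    have a1 : y + (s - y) = s := by ring
    have a2 : s - y = -(y - s) := by ring
    rw [a1, a2]
  have hI : Integrable (fun p : ℝ × ℝ => (𝓕 r p.2 * f (-(p.1 - p.2))) * h (x + p.1))
      ((volume : Measure ℝ).prod volume) := by
    have h1 : Integrable (fun p : ℝ × ℝ => 𝓕 r p.2 * f (-(p.1 - p.2)))
        ((volume : Measure ℝ).prod volume) := by
      have hfn : Integrable (fun u => f (-u)) := hf.comp_neg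
      exact hr.intF.convolution_integrand (ContinuousLinearMap.mul ℂ ℂ) hfn
    refine h1.mul_bdd (c := D) ?_ (Eventually.of_forall fun p => hD _)
    exact (hm.comp (by fun_prop)).aestronglyMeasurable
  unfold AA
  have e1 : ∀ y, 𝓕 (fun ξ => r ξ * 𝓕 f ξ) y * h (x + y) = ∫ s, (𝓕 r s * f (-(y - s))) * h (x + y) := by
    intro y
    rw [e0, ← integral_mul_const]
  simp_rw [e1]
  rw [integral_integral_swap hI]
  have e2 : ∀ s, ∫ y, 𝓕 r s * f (-(y - s)) * h (x + y) = 𝓕 r s * c := by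
    intro s
    have h2 : ∫ y, f (-(y - s)) * h (x + y) = c := by
      rw [← hc (x + s), ← integral_sub_left_eq_self (fun t => f t * h (x + s - t)) volume s]
      refine integral_congr_ae (Eventually.of_forall fun y => ?_)
      simp only
      congr 2 <;> ring
    rw [← h2, ← integral_const_mul]
    refine integral_congr_ae (Eventually.of_forall fun y => ?_)
    simp only
    ring
  simp_rw [e2]
  rw [integral_mul_const, integral_fourier_eq r hr.cont hr.int hr.intF, mul_comm]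

end

end Pool.Agent.L5helper94.TA
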