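import Pool.Agent.L5helper94.TA.Core
import Pool.Agent.W703.TL.Main
open MeasureTheory Set Filter Topology FourierTransform
open scoped ENNReal Real Convolution ComplexConjugate
open Pool.Agent.W703.TL (Tiles Within HasPeriodicStructure)

namespace Pool.Agent.L5helper94.TA

/-- two distinct translates in a tiling at level one are separated -/
theorem tiles_sep (Ω L : Set ℝ) (hΩ : MeasurableSet Ω) (hL : Tiles Ω L) (u l : ℝ) (hl : 0 < l)
    (hκ : volume (Icc u (u + l) \ Ω) ≤ ENNReal.ofReal (1/8 * l)) (a b : ℝ) (ha : a ∈ L) (hb : b ∈ L)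
    (hab : a < b) : 3 / 4 * l ≤ b - a := by
  by_contra hcon
  push Not at hcon
  -- overlap
  have h1 : ∀ᵐ x : ℝ, x ∉ Icc (u + b) (u + l + a) ∩ ({x | x - a ∈ Ω} ∩ {x | x - b ∈ Ω}) := by
    filter_upwards [hL.2] with x hx hx'
    have := hx.unique ⟨ha, hx'.2.1⟩ ⟨hb, hx'.2.2⟩
    exact absurd this hab.ne
  have h2 : volume (Icc (u + b) (u + l + a) ∩ ({x | x - a ∈ Ω} ∩ {x | x - b ∈ Ω})) = 0 :=
    measure_eq_zero_iff_ae_notMem.2 h1
  have tr : ∀ c : ℝ, volume {x | x - c ∈ Icc u (u + l) \ Ω} ≤ ENNReal.ofReal (1/8 * l) := by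
    intro c
    have : {x | x - c ∈ Icc u (u + l) \ Ω} = (fun x => x + (-c)) ⁻¹' (Icc u (u + l) \ Ω) := by
      ext x; simp [sub_eq_add_neg]
    rw [this, measure_preimage_add_right]
    exact hκ
  have h3 : Icc (u + b) (u + l + a) ⊆ (Icc (u + b) (u + l + a) ∩ ({x | x - a ∈ Ω} ∩ {x | x - b ∈ Ω}))
      ∪ ({x | x - a ∈ Icc u (u + l) \ Ω} ∪ {x | x - b ∈ Icc u (u + l) \ Ω}) := by
    intro x hx
    by_cases hxa : x - a ∈ Ω
    · by_cases hxb : x - b ∈ Ω
      · exact Or.inl ⟨hx, hxa, hxb⟩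
      · refine Or.inr (Or.inr ⟨?_, hxb⟩)
        rw [mem_Icc] at hx ⊢
        constructor <;> linarith
    · refine Or.inr (Or.inl ⟨?_, hxa⟩)
      rw [mem_Icc] at hx ⊢
      constructor <;> linarith
  have h4 : volume (Icc (u + b) (u + l + a)) ≤ ENNReal.ofReal (1/4 * l) := by
    refine (measure_mono h3).trans ?_
    refine (measure_union_le _ _).trans ?_
    rw [h2, zero_add]
    refine (measure_union_le _ _).trans ?_
    refine (add_le_add (tr a) (tr b)).trans (le_of_eq ?_)
    rw [← ENNReal.ofReal_add (by positivity) (by positivity)]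
    congr 1; ring
  rw [Real.volume_Icc, ENNReal.ofReal_le_ofReal_iff (by positivity)] at h4
  linarith

section
variable {Ω L : Set ℝ} (hΩ : MeasurableSet Ω) (hL : Tiles Ω L) {s0 : ℝ}
  (hsep : ∀ a ∈ L, ∀ b ∈ L, a < b → s0 ≤ b - a)

/-- the union of the intervals `[a, a + r)` -/
def UU (L : Set ℝ) (r : ℝ) : Set ℝ := ⋃ a : L, Ico (a : ℝ) (a + r)

/-- density `1/r` on `UU` -/
noncomputable def hh (L : Set ℝ) (r : ℝ) : ℝ → ℂ := (UU L r).indicator fun _ => ((1 / r : ℝ) : ℂ)

include hL in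
theorem UU_meas (r : ℝ) : MeasurableSet (UU L r) := by
  have : Countable L := hL.1.to_subtype
  exact MeasurableSet.iUnion fun a => measurableSet_Ico

include hL in
theorem hh_meas (r : ℝ) : Measurable (hh L r) :=
  measurable_const.indicator (UU_meas hL r)

theorem hh_bound {r : ℝ} (hr : 0 < r) (L : Set ℝ) (x : ℝ) : ‖hh L r x‖ ≤ 1 / r := by
  unfold hh
  by_cases hx : x ∈ UU L r
  · rw [indicator_of_mem hx, Complex.norm_real, Real.norm_eq_abs, abs_of_pos (by positivity)]
  · rw [indicator_of_notMem hx, norm_zero]; positivity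

include hsep in
theorem Ico_disj {r : ℝ} (hr : r ≤ s0) :
    Pairwise (Function.onFun Disjoint fun a : L => Ico (a : ℝ) (a + r)) := by
  intro a b hab
  have key : ∀ a b : L, (a : ℝ) < b → Disjoint (Ico (a : ℝ) (a + r)) (Ico (b : ℝ) (b + r)) := by
    intro a b h
    rw [Set.disjoint_left]
    intro x hx hx'
    rw [mem_Ico] at hx hx'
    have := hsep a a.2 b b.2 h
    linarith
  rcases lt_trichotomy (a : ℝ) b with h | h | h
  · exact key a b h
  · exact absurd (Subtype.ext h) hab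
  · exact (key b a h).symm

include hL hsep in
/-- the formula for the convolution with `hh` -/
theorem conv_hasSum {r : ℝ} (hr : 0 < r) (hr0 : r ≤ s0) {F : ℝ → ℂ} (hF : Integrable F) (z : ℝ) :
    HasSum (fun a : L => ((1 / r : ℝ) : ℂ) * ∫ w in Ico (a : ℝ) (a + r), F (z - w))
      (∫ t, F t * hh L r (z - t)) := by
  have : Countable L := hL.1.to_subtype
  have hFz : Integrable (fun w => F (z - w)) := hF.comp_sub_left z
  have h1 := hasSum_integral_iUnion (fun a : L => (measurableSet_Ico : MeasurableSet (Ico (a : ℝ) (a + r))))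
    (Ico_disj hsep hr0) hFz.integrableOn
  have h2 := h1.mul_left ((1 / r : ℝ) : ℂ)
  have e0 : ∫ t, F t * hh L r (z - t) = ((1 / r : ℝ) : ℂ) * ∫ w in UU L r, F (z - w) := by
    rw [← integral_sub_left_eq_self (fun t => F t * hh L r (z - t)) volume z, ← integral_const_mul,
      ← integral_indicator (UU_meas hL r)]
    refine integral_congr_ae (Eventually.of_forall fun w => ?_)
    simp only [sub_sub_cancel]
    by_cases hw : w ∈ UU L r
    · rw [indicator_of_mem hw]
      unfold hh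
      rw [indicator_of_mem hw, mul_comm]
    · rw [indicator_of_notMem hw]
      unfold hh
      rw [indicator_of_notMem hw, mul_zero]
  rw [e0]
  exact h2

include hΩ hL in
theorem tsum_ind (F : ℝ → ℝ≥0∞) (hF : Measurable F) (I : Set ℝ) (hI : MeasurableSet I) :
    ∑' a : L, ∫⁻ z in I, Ω.indicator (fun _ => (1 : ℝ≥0∞)) (z - a) * F z = ∫⁻ z in I, F z := by
  have : Countable L := hL.1.to_subtype
  have hm : ∀ a : L, Measurable fun z : ℝ => Ω.indicator (fun _ => (1 : ℝ≥0∞)) (z - a) * F z := fun a =>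
    ((measurable_const.indicator hΩ).comp (measurable_id.sub_const _)).mul hF
  rw [← lintegral_tsum fun a => (hm a).aemeasurable]
  refine lintegral_congr_ae (ae_restrict_of_ae ?_)
  filter_upwards [hL.2] with z hz
  obtain ⟨a, ⟨ha, ha'⟩, hu⟩ := hz
  rw [tsum_eq_single (⟨a, ha⟩ : L)]
  · rw [indicator_of_mem (show z - ((⟨a, ha⟩ : L) : ℝ) ∈ Ω from ha'), one_mul]
  · intro b hb
    rw [indicator_of_notMem, zero_mul]
    intro hmem
    exact hb (Subtype.ext (hu b ⟨b.2, hmem⟩))

end

end Pool.Agent.L5helper94.TA
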