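import Pool.Agent.L5helper94.TA.Tile
open MeasureTheory Set Filter Topology FourierTransform
open scoped ENNReal Real Convolution ComplexConjugate
open Pool.Agent.W703.TL (Tiles Within HasPeriodicStructure)

namespace Pool.Agent.L5helper94.TA

section
variable {Ω L : Set ℝ} (hΩ : MeasurableSet Ω) (hL : Tiles Ω L) {s0 : ℝ}
  (hsep : ∀ a ∈ L, ∀ b ∈ L, a < b → s0 ≤ b - a)

include hΩ hL hsep in
/-- the convolution of the indicator with `hh` is one -/
theorem conv_one {r : ℝ} (hr : 0 < r) (hr0 : r ≤ s0) (hf : volume Ω ≠ ∞) (z : ℝ) :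
    ∫ t, (Ω.indicator (fun _ => (1 : ℂ)) t) * hh L r (z - t) = 1 := by
  have hF : Integrable (Ω.indicator (fun _ => (1 : ℂ))) :=
    (integrable_indicator_iff hΩ).2 (integrableOn_const hf)
  have h1 := conv_hasSum hL hsep hr hr0 hF z
  have h2 := tsum_ind hΩ hL (fun _ => (1 : ℝ≥0∞)) measurable_const (Ioc (z - r) z) measurableSet_Ioc
  have hv : ∫⁻ y in Ioc (z - r) z, (1 : ℝ≥0∞) = ENNReal.ofReal r := by
    simp
  rw [hv] at h2
  have h3 : ∀ a : L, ∫⁻ y in Ioc (z - r) z, Ω.indicator (fun _ => (1 : ℝ≥0∞)) (y - a) * 1 ≠ ∞ :=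
    ENNReal.ne_top_of_tsum_ne_top (by rw [h2]; exact ENNReal.ofReal_ne_top)
  have h4 : HasSum (fun a : L => (∫⁻ y in Ioc (z - r) z, Ω.indicator (fun _ => (1 : ℝ≥0∞)) (y - a) * 1).toReal) r := by
    have := ENNReal.hasSum_toReal (f := fun a : L => ∫⁻ y in Ioc (z - r) z, Ω.indicator (fun _ => (1 : ℝ≥0∞)) (y - a) * 1)
      (by rw [h2]; exact ENNReal.ofReal_ne_top)
    rw [← ENNReal.tsum_toReal_eq h3, h2, ENNReal.toReal_ofReal hr.le] at this
    exact this
  have h5 : ∀ a : L, ∫ w in Ico (a : ℝ) (a + r), Ω.indicator (fun _ => (1 : ℂ)) (z - w) =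
      (((∫⁻ y in Ioc (z - r) z, Ω.indicator (fun _ => (1 : ℝ≥0∞)) (y - a) * 1).toReal : ℝ) : ℂ) := by
    intro a
    have hS : MeasurableSet (Ico (a : ℝ) (a + r) ∩ {w | z - w ∈ Ω}) :=
      measurableSet_Ico.inter ((measurable_const.sub measurable_id) hΩ)
    have hT : MeasurableSet (Ioc (z - r) z ∩ {y | y - (a : ℝ) ∈ Ω}) :=
      measurableSet_Ioc.inter ((measurable_id.sub_const _) hΩ)
    have e1 : ∫ w in Ico (a : ℝ) (a + r), Ω.indicator (fun _ => (1 : ℂ)) (z - w) =
        ((volume (Ico (a : ℝ) (a + r) ∩ {w | z - w ∈ Ω})).toReal : ℂ) := by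
      rw [← integral_indicator measurableSet_Ico]
      have : (Ico (a : ℝ) (a + r)).indicator (fun w => Ω.indicator (fun _ => (1 : ℂ)) (z - w)) =
          (Ico (a : ℝ) (a + r) ∩ {w | z - w ∈ Ω}).indicator (fun _ => (1 : ℂ)) := by
        ext w
        by_cases h : w ∈ Ico (a : ℝ) (a + r)
        · by_cases h' : z - w ∈ Ω
          · rw [indicator_of_mem h, indicator_of_mem h', indicator_of_mem (mem_inter h h')]
          · rw [indicator_of_mem h, indicator_of_notMem h',
              indicator_of_notMem (fun hh => h' hh.2)]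
        · rw [indicator_of_notMem h, indicator_of_notMem (fun hh => h hh.1)]
      rw [this, integral_indicator hS]
      simp [Measure.real]
    have e2 : ∫⁻ y in Ioc (z - r) z, Ω.indicator (fun _ => (1 : ℝ≥0∞)) (y - a) * 1 =
        volume (Ioc (z - r) z ∩ {y | y - (a : ℝ) ∈ Ω}) := by
      rw [← lintegral_indicator measurableSet_Ioc]
      have : (Ioc (z - r) z).indicator (fun y => Ω.indicator (fun _ => (1 : ℝ≥0∞)) (y - a) * 1) =
          (Ioc (z - r) z ∩ {y | y - (a : ℝ) ∈ Ω}).indicator (fun _ => (1 : ℝ≥0∞)) := by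
        ext w
        by_cases h : w ∈ Ioc (z - r) z
        · by_cases h' : w - (a : ℝ) ∈ Ω
          · rw [indicator_of_mem h, indicator_of_mem h', indicator_of_mem (mem_inter h h'), mul_one]
          · rw [indicator_of_mem h, indicator_of_notMem h', zero_mul,
              indicator_of_notMem (fun hh => h' hh.2)]
        · rw [indicator_of_notMem h, indicator_of_notMem (fun hh => h hh.1)]
      rw [this, lintegral_indicator hT]
      simp
    rw [e1, e2]
    congr 2
    have hp := (Measure.measurePreserving_sub_left volume (z + a) : MeasurePreserving (fun w : ℝ => z + a - w) volume volume).measure_preimage hT.nullMeasurableSet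
    rw [← hp]
    congr 1
    ext w
    simp only [mem_inter_iff, mem_Ico, mem_setOf_eq, mem_preimage, mem_Ioc]
    constructor
    · rintro ⟨⟨h1, h2⟩, h3⟩
      refine ⟨⟨by linarith, by linarith⟩, ?_⟩
      have : z + (a : ℝ) - w - a = z - w := by ring
      rw [this]; exact h3
    · rintro ⟨⟨h1, h2⟩, h3⟩
      have : z + (a : ℝ) - w - a = z - w := by ring
      rw [this] at h3
      exact ⟨⟨by linarith, by linarith⟩, h3⟩
  have h6 : HasSum (fun a : L => ((1 / r : ℝ) : ℂ) *
      (((∫⁻ y in Ioc (z - r) z, Ω.indicator (fun _ => (1 : ℝ≥0∞)) (y - a) * 1).toReal : ℝ) : ℂ))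
      (((1 / r : ℝ) : ℂ) * (r : ℂ)) :=
    (Complex.hasSum_ofReal.2 h4).mul_left _
  simp only [h5] at h1
  have h7 := h1.unique h6
  rw [h7, ← Complex.ofReal_mul, one_div, inv_mul_cancel₀ hr.ne', Complex.ofReal_one]

end

end Pool.Agent.L5helper94.TA
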