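import Pool.Agent.L5helper94.TA.L1
open MeasureTheory Set Filter Topology FourierTransform
open scoped ENNReal Real Convolution ComplexConjugate

namespace Pool.Agent.L5helper94.TA

/-- continuity of translation in `L¹` -/
theorem trans_cont (g : ℝ → ℂ) (hg : Integrable g) (ε : ℝ) (hε : 0 < ε) :
    ∃ ρ : ℝ, 0 < ρ ∧ ∀ s : ℝ, |s| ≤ ρ → ∫⁻ x, ‖g (x + s) - g x‖ₑ ≤ ENNReal.ofReal ε := by
  have hε3 : ENNReal.ofReal (ε / 3) ≠ 0 := by
    rw [Ne, ENNReal.ofReal_eq_zero, not_le]; positivity
  obtain ⟨k, hk1, hk2, hk3, hk4⟩ := hg.exists_hasCompactSupport_lintegral_sub_le hε3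
  obtain ⟨R, hR0, hR⟩ : ∃ R : ℝ, 0 < R ∧ ∀ x, R < |x| → k x = 0 := by
    obtain ⟨R, hR⟩ := hk1.isCompact.isBounded.subset_closedBall (0:ℝ)
    refine ⟨max R 1, lt_max_of_lt_right one_pos, fun x hx => ?_⟩
    by_contra hcon
    have : x ∈ tsupport k := subset_tsupport _ hcon
    have := hR this
    rw [Metric.mem_closedBall, Real.dist_eq, sub_zero] at this
    have := le_max_left R 1
    linarith
  have huc : UniformContinuous k := hk1.uniformContinuous_of_continuous hk3
  have hε' : 0 < ε / 3 / (2 * (R + 1)) := by positivity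
  obtain ⟨ρ, hρ, hρ'⟩ := Metric.uniformContinuous_iff.1 huc _ hε'
  refine ⟨min (ρ / 2) 1, by positivity, fun s hs => ?_⟩
  have hs1 : |s| < ρ := lt_of_le_of_lt (hs.trans (min_le_left _ _)) (by linarith)
  have hs2 : |s| ≤ 1 := hs.trans (min_le_right _ _)
  have h1 : ∫⁻ x, ‖g (x + s) - k (x + s)‖ₑ ≤ ENNReal.ofReal (ε / 3) := by
    rw [lintegral_add_right_eq_self (fun x => ‖g x - k x‖ₑ) s]
    exact hk2
  have h2 : ∫⁻ x, ‖k (x + s) - k x‖ₑ ≤ ENNReal.ofReal (ε / 3) := by
    have hpt : ∀ x, ‖k (x + s) - k x‖ₑ ≤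
        (Icc (-(R + 1)) (R + 1)).indicator (fun _ => ENNReal.ofReal (ε / 3 / (2 * (R + 1)))) x := by
      intro x
      by_cases hx : x ∈ Icc (-(R + 1)) (R + 1)
      · rw [indicator_of_mem hx, ← ofReal_norm_eq_enorm]
        refine ENNReal.ofReal_le_ofReal ?_
        have := hρ' (a := x + s) (b := x) (by rw [Real.dist_eq]; simpa using hs1)
        rw [dist_eq_norm] at this
        exact this.le
      · rw [indicator_of_notMem hx]
        have hx' : R + 1 < |x| := by
          by_contra hcon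
          exact hx (mem_Icc.2 (abs_le.1 (not_lt.1 hcon)))
        have e1 : k x = 0 := hR x (by linarith)
        have e2 : k (x + s) = 0 := by
          refine hR _ ?_
          have := abs_sub_abs_le_abs_sub x (-s)
          rw [abs_neg, sub_neg_eq_add] at this
          linarith
        rw [e1, e2, sub_zero, enorm_zero]
    refine (lintegral_mono hpt).trans ?_
    rw [lintegral_indicator measurableSet_Icc, setLIntegral_const, Real.volume_Icc,
      ← ENNReal.ofReal_mul (by positivity)]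
    refine ENNReal.ofReal_le_ofReal (le_of_eq ?_)
    field_simp
    ring
  have h3 : ∫⁻ x, ‖k x - g x‖ₑ ≤ ENNReal.ofReal (ε / 3) := by
    refine le_trans (le_of_eq ?_) hk2
    refine lintegral_congr fun x => ?_
    rw [← enorm_neg, neg_sub]
  have mg : AEMeasurable (fun x => ‖g (x + s) - k (x + s)‖ₑ) :=
    ((hg.comp_add_right s).sub (hk4.comp_add_right s)).aestronglyMeasurable.enorm
  have mk : AEMeasurable (fun x => ‖k (x + s) - k x‖ₑ) :=
    ((hk4.comp_add_right s).sub hk4).aestronglyMeasurable.enorm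
  calc ∫⁻ x, ‖g (x + s) - g x‖ₑ
      ≤ ∫⁻ x, (‖g (x + s) - k (x + s)‖ₑ + (‖k (x + s) - k x‖ₑ + ‖k x - g x‖ₑ)) := by
        refine lintegral_mono fun x => ?_
        have e : g (x + s) - g x = (g (x + s) - k (x + s)) + ((k (x + s) - k x) + (k x - g x)) := by ring
        rw [e]
        refine (enorm_add_le _ _).trans ?_
        gcongr
        exact enorm_add_le _ _
    _ = (∫⁻ x, ‖g (x + s) - k (x + s)‖ₑ) + ((∫⁻ x, ‖k (x + s) - k x‖ₑ) + ∫⁻ x, ‖k x - g x‖ₑ) := by
        rw [lintegral_add_left' mg, lintegral_add_left' mk]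
    _ ≤ ENNReal.ofReal (ε / 3) + (ENNReal.ofReal (ε / 3) + ENNReal.ofReal (ε / 3)) := by gcongr
    _ = ENNReal.ofReal ε := by
        rw [← ENNReal.ofReal_add (by positivity) (by positivity),
          ← ENNReal.ofReal_add (by positivity) (by positivity)]
        congr 1; ring

/-- the tail of an integrable function -/
theorem tail_small (b : ℝ → ℂ) (hb : Integrable b) (ε : ℝ) (hε : 0 < ε) :
    ∃ R : ℝ, 0 < R ∧ ∫⁻ s in {s : ℝ | R < |s|}, ‖b s‖ₑ ≤ ENNReal.ofReal ε := by
  have hε3 : ENNReal.ofReal ε ≠ 0 := by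
    rw [Ne, ENNReal.ofReal_eq_zero, not_le]; positivity
  obtain ⟨k, hk1, hk2, -, -⟩ := hb.exists_hasCompactSupport_lintegral_sub_le hε3
  obtain ⟨R, hR⟩ := hk1.isCompact.isBounded.subset_closedBall (0:ℝ)
  refine ⟨max R 1, lt_max_of_lt_right one_pos, ?_⟩
  refine le_trans ?_ hk2
  refine le_trans ?_ (setLIntegral_le_lintegral {s : ℝ | max R 1 < |s|} _)
  have hms : MeasurableSet {s : ℝ | max R 1 < |s|} :=
    measurableSet_lt measurable_const measurable_norm
  refine setLIntegral_mono_ae' hms (Eventually.of_forall fun s hs => ?_)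
  have : k s = 0 := by
    by_contra hcon
    have h1 : s ∈ tsupport k := subset_tsupport _ hcon
    have h2 := hR h1
    rw [Metric.mem_closedBall, Real.dist_eq, sub_zero] at h2
    have h3 : max R 1 < |s| := hs
    have := le_max_left R 1
    linarith
  rw [this, sub_zero]

theorem fourier_exp_mul (r : ℝ → ℂ) (y w : ℝ) :
    𝓕 (fun ξ : ℝ => Complex.exp (-(2 * π * ξ * y * Complex.I)) * r ξ) w = 𝓕 r (w + y) := by
  rw [Real.fourier_real_eq_integral_exp_smul, Real.fourier_real_eq_integral_exp_smul]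
  refine integral_congr_ae (Eventually.of_forall fun v => ?_)
  simp only [smul_eq_mul]
  rw [← mul_assoc, ← Complex.exp_add]
  congr 2
  push_cast
  ring

theorem integrable_exp_mul {r : ℝ → ℂ} (hr : Integrable r) (y : ℝ) :
    Integrable (fun ξ : ℝ => Complex.exp (-(2 * π * ξ * y * Complex.I)) * r ξ) := by
  refine hr.bdd_mul (c := 1) ?_ (Eventually.of_forall fun ξ => ?_)
  · exact (by fun_prop : Continuous fun ξ : ℝ => Complex.exp (-(2 * π * ξ * y * Complex.I))).aestronglyMeasurable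
  · rw [Complex.norm_exp]
    have : (-(2 * π * ξ * y * Complex.I) : ℂ).re = 0 := by
      have : (-(2 * π * ξ * y * Complex.I) : ℂ) = ((-(2 * π * ξ * y) : ℝ) : ℂ) * Complex.I := by
        push_cast; ring
      rw [this, Complex.re_ofReal_mul, Complex.I_re, mul_zero]
    rw [this, Real.exp_zero]

theorem fourier_swap (g r : ℝ → ℂ) (hg : Integrable g) (hr : Integrable r) (y : ℝ) :
    𝓕 (fun ξ => r ξ * 𝓕 g ξ) y = ∫ t, g t * 𝓕 r (y + t) := by
  have h1 := VectorFourier.integral_fourierIntegral_smul_eq_flip (μ := (volume : Measure ℝ))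
      (ν := (volume : Measure ℝ)) (f := g)
      (g := fun ξ : ℝ => Complex.exp (-(2 * π * ξ * y * Complex.I)) * r ξ)
      Real.continuous_fourierChar (L := innerₗ ℝ) continuous_inner hg (integrable_exp_mul hr y)
  have h2 : ∫ ξ, 𝓕 g ξ * (Complex.exp (-(2 * π * ξ * y * Complex.I)) * r ξ)
      = ∫ x, g x * 𝓕 (fun ξ : ℝ => Complex.exp (-(2 * π * ξ * y * Complex.I)) * r ξ) x := by
    simpa using! h1
  rw [Real.fourier_real_eq_integral_exp_smul]
  have e1 : ∀ x, g x * 𝓕 (fun ξ : ℝ => Complex.exp (-(2 * π * ξ * y * Complex.I)) * r ξ) x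
      = g x * 𝓕 r (y + x) := by
    intro x; rw [fourier_exp_mul, add_comm x y]
  simp_rw [e1] at h2
  rw [← h2]
  refine integral_congr_ae (Eventually.of_forall fun v => ?_)
  simp only [smul_eq_mul]
  have e2 : Complex.exp (((-2 * π * (v * y) : ℝ) : ℂ) * Complex.I)
      = Complex.exp (-(2 * π * v * y * Complex.I)) := by
    congr 1; push_cast; ring
  rw [show (-2 * π * v * y : ℝ) = -2 * π * (v * y) by ring, e2]
  ring

/-- the tent function -/
def tent (x : ℝ) : ℝ := max 0 (1 - |x|)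

theorem tent_lip (x y : ℝ) : |tent x - tent y| ≤ |x - y| := by
  unfold tent
  have := abs_max_sub_max_le_abs 0 (1 - |x|)
  calc |max 0 (1 - |x|) - max 0 (1 - |y|)| ≤ |(1 - |x|) - (1 - |y|)| := by
        rw [max_comm 0, max_comm 0]
        exact abs_max_sub_max_le_abs _ _ _
    _ = |(|y| - |x|)| := by congr 1; ring
    _ ≤ |y - x| := abs_abs_sub_abs_le_abs_sub _ _
    _ = |x - y| := abs_sub_comm _ _

theorem tent_zero {x : ℝ} (hx : 1 ≤ |x|) : tent x = 0 := by
  unfold tent; exact max_eq_left (by linarith)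

theorem tent_nonneg (x : ℝ) : 0 ≤ tent x := le_max_left _ _

theorem tent_le_one (x : ℝ) : tent x ≤ 1 := by
  unfold tent
  exact max_le zero_le_one (by linarith [abs_nonneg x])

theorem tent_self : tent 0 = 1 := by simp [tent]

theorem lc_tent (c n : ℝ) (hn : 0 < n) :
    LC (1 / n) (|c| + n) (fun x => ((tent ((x - c) / n) : ℝ) : ℂ)) := by
  constructor
  · intro x y
    rw [← Complex.ofReal_sub, Complex.norm_real, Real.norm_eq_abs]
    refine (tent_lip _ _).trans (le_of_eq ?_)
    rw [← sub_div, abs_div, abs_of_pos hn]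
    ring_nf
  · intro x hx
    show ((tent ((x - c) / n) : ℝ) : ℂ) = 0
    rw [tent_zero, Complex.ofReal_zero]
    rw [abs_div, abs_of_pos hn, le_div_iff₀ hn]
    have := abs_sub_abs_le_abs_sub x c
    linarith

theorem integral_fourier_eq (q : ℝ → ℂ) (hc : Continuous q) (hi : Integrable q)
    (hF : Integrable (𝓕 q)) : ∫ s, 𝓕 q s = q 0 := by
  have h := congrFun (hc.fourierInv_fourier_eq hi hF) 0
  rw [← h, Real.fourierInv_eq]
  refine integral_congr_ae (Eventually.of_forall fun v => ?_)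
  simp

theorem approx (g : ℝ → ℂ) (hgm : Measurable g) (hg : Integrable g) (ε : ℝ) (hε : 0 < ε) :
    ∃ n : ℝ, 0 < n ∧
      ∫⁻ y, ‖𝓕 (fun ξ => ((tent ((ξ - 0) / n) : ℝ) : ℂ) * 𝓕 g ξ) y - g (-y)‖ₑ ≤ ENNReal.ofReal ε := by
  -- the kernel
  let β : ℝ → ℂ := fun x => ((tent x : ℝ) : ℂ)
  have hβ : LC 1 1 β := by
    have := lc_tent 0 1 one_pos
    simpa [β] using this
  have hβc : Continuous β := cont_of_lip hβ.1
  obtain ⟨hbi, -⟩ := l1_bound (δ := 1) zero_le_one one_pos hβ (fun x => by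
    simp only [β]
    rw [Complex.norm_real, Real.norm_eq_abs, abs_of_nonneg (tent_nonneg x)]
    exact tent_le_one x)
  obtain ⟨hβi, -, -⟩ := supp_facts β hβc 1 1 zero_le_one (fun x => by
    simp only [β]
    rw [Complex.norm_real, Real.norm_eq_abs, abs_of_nonneg (tent_nonneg x)]
    exact tent_le_one x) hβ.2
  set b : ℝ → ℂ := 𝓕 β with hb
  have hb1 : ∫ s, b s = 1 := by
    rw [hb, integral_fourier_eq β hβc hβi hbi]
    simp [β, tent_self]
  have hbc : Continuous b := fourier_cont hβi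
  -- constants
  set G : ℝ := ∫ x, ‖g x‖ with hG
  have hG0 : 0 ≤ G := integral_nonneg fun _ => norm_nonneg _
  set Nb : ℝ := ∫ x, ‖b x‖ with hNb
  have hNb0 : 0 ≤ Nb := integral_nonneg fun _ => norm_nonneg _
  have hGe : ∫⁻ x, ‖g x‖ₑ = ENNReal.ofReal G := by
    rw [hG, ofReal_integral_norm_eq_lintegral_enorm hg]
  have hNbe : ∫⁻ x, ‖b x‖ₑ = ENNReal.ofReal Nb := by
    rw [hNb, ofReal_integral_norm_eq_lintegral_enorm hbi]
  obtain ⟨R, hR0, hR⟩ := tail_small b hbi (ε / (2 * (2 * G + 1))) (by positivity)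
  obtain ⟨ρ, hρ0, hρ⟩ := trans_cont g hg (ε / (2 * (Nb + 1))) (by positivity)
  set n : ℝ := R / ρ with hn
  have hn0 : 0 < n := by positivity
  refine ⟨n, hn0, ?_⟩
  -- the formula
  have hFn : ∀ s, 𝓕 (fun ξ : ℝ => ((tent ((ξ - 0) / n) : ℝ) : ℂ)) s = n * b (n * s) := by
    intro s
    rw [hb, Real.fourier_real_eq_integral_exp_smul, Real.fourier_real_eq_integral_exp_smul]
    have := Measure.integral_comp_div (fun x : ℝ => Complex.exp (((-2 * π * x * (n * s) : ℝ) : ℂ) * Complex.I) • β x) n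
    rw [abs_of_pos hn0] at this
    rw [show ((n:ℝ) : ℂ) * ∫ v : ℝ, Complex.exp (((-2 * π * v * (n * s) : ℝ) : ℂ) * Complex.I) • β v
      = n • ∫ v : ℝ, Complex.exp (((-2 * π * v * (n * s) : ℝ) : ℂ) * Complex.I) • β v from rfl, ← this]
    refine integral_congr_ae (Eventually.of_forall fun v => ?_)
    simp only [β, sub_zero]
    congr 4
    field_simp
  have hri : Integrable (fun ξ : ℝ => ((tent ((ξ - 0) / n) : ℝ) : ℂ)) := by
    have h1 := lc_tent 0 n hn0
    exact (supp_facts _ (cont_of_lip h1.1) 1 (|0| + n) (by positivity) (fun x => by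
      rw [Complex.norm_real, Real.norm_eq_abs, abs_of_nonneg (tent_nonneg _)]
      exact tent_le_one _) h1.2).1
  have hform : ∀ y, 𝓕 (fun ξ => ((tent ((ξ - 0) / n) : ℝ) : ℂ) * 𝓕 g ξ) y = ∫ s, g (s / n - y) * b s := by
    intro y
    rw [fourier_swap g _ hg hri y]
    simp_rw [hFn]
    rw [← integral_sub_right_eq_self (fun t => g t * (n * b (n * (y + t)))) y]
    have := Measure.integral_comp_mul_left (fun s => g (s / n - y) * b s) n
    rw [abs_of_pos (by positivity)] at this
    have e : ∫ s, g (s / n - y) * b s = n • ∫ x, g (n * x / n - y) * b (n * x) := by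
      rw [this, smul_smul, mul_inv_cancel₀ hn0.ne', one_smul]
    rw [e, ← integral_smul]
    refine integral_congr_ae (Eventually.of_forall fun v => ?_)
    simp only [Complex.real_smul]
    rw [mul_div_cancel_left₀ _ hn0.ne']
    have e2 : n * (y + (v - y)) = n * v := by ring
    rw [e2]
    ring
  have hdiff : ∀ y, ‖𝓕 (fun ξ => ((tent ((ξ - 0) / n) : ℝ) : ℂ) * 𝓕 g ξ) y - g (-y)‖ₑ
      ≤ ∫⁻ s, ‖g (s / n - y) - g (-y)‖ₑ * ‖b s‖ₑ := by
    intro y
    have i1 : Integrable (fun s => g (s / n - y) * b s) := by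
      have h1 : Integrable (fun s => g (s / n - y)) := (hg.comp_sub_right y).comp_div hn0.ne'
      have h2 : ∀ s, ‖b s‖ ≤ ∫ x, ‖β x‖ := fun w =>
        VectorFourier.norm_fourierIntegral_le_integral_norm _ _ _ _ _
      exact h1.mul_bdd (c := ∫ x, ‖β x‖) hbc.aestronglyMeasurable (Eventually.of_forall h2)
    have i2 : Integrable (fun s => g (-y) * b s) := hbi.const_mul _
    have e1 : 𝓕 (fun ξ => ((tent ((ξ - 0) / n) : ℝ) : ℂ) * 𝓕 g ξ) y - g (-y)
        = ∫ s, (g (s / n - y) - g (-y)) * b s := by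
      rw [hform y]
      have : g (-y) = ∫ s, g (-y) * b s := by
        rw [integral_const_mul, hb1, mul_one]
      rw [this, ← integral_sub i1 i2, ← this]
      refine integral_congr_ae (Eventually.of_forall fun v => ?_)
      simp only
      ring
    rw [e1]
    refine (enorm_integral_le_lintegral_enorm _).trans ?_
    refine lintegral_mono fun s => ?_
    rw [enorm_mul]
  calc ∫⁻ y, ‖𝓕 (fun ξ => ((tent ((ξ - 0) / n) : ℝ) : ℂ) * 𝓕 g ξ) y - g (-y)‖ₑ
      ≤ ∫⁻ y, ∫⁻ s, ‖g (s / n - y) - g (-y)‖ₑ * ‖b s‖ₑ := lintegral_mono hdiff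
    _ = ∫⁻ s, ∫⁻ y, ‖g (s / n - y) - g (-y)‖ₑ * ‖b s‖ₑ := by
        have hmeas : Measurable (fun p : ℝ × ℝ => ‖g (p.2 / n - p.1) - g (-p.1)‖ₑ * ‖b p.2‖ₑ) := by
          have m1 : Measurable (fun p : ℝ × ℝ => g (p.2 / n - p.1)) := hgm.comp (by fun_prop)
          have m2 : Measurable (fun p : ℝ × ℝ => g (-p.1)) := hgm.comp (by fun_prop)
          have m3 : Measurable (fun p : ℝ × ℝ => b p.2) := hbc.measurable.comp measurable_snd
          exact (m1.sub m2).enorm.mul m3.enorm
        exact lintegral_lintegral_swap hmeas.aemeasurable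
    _ = ∫⁻ s, (∫⁻ x, ‖g (x + s / n) - g x‖ₑ) * ‖b s‖ₑ := by
        refine lintegral_congr fun s => ?_
        rw [lintegral_mul_const]
        · congr 1
          have hm2 : Measurable (fun x => ‖g (x + s / n) - g x‖ₑ) := by
            refine Measurable.enorm (Measurable.sub ?_ hgm)
            exact hgm.comp (by fun_prop)
          have := (Measure.measurePreserving_neg (volume : Measure ℝ)).lintegral_comp hm2
          rw [← this]
          refine lintegral_congr fun y => ?_
          rw [show s / n - y = -y + s / n by ring]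
        · refine Measurable.enorm (Measurable.sub ?_ ?_)
          · exact hgm.comp (by fun_prop)
          · exact hgm.comp (by fun_prop)
    _ = (∫⁻ s in {s : ℝ | R < |s|}, (∫⁻ x, ‖g (x + s / n) - g x‖ₑ) * ‖b s‖ₑ)
        + ∫⁻ s in {s : ℝ | R < |s|}ᶜ, (∫⁻ x, ‖g (x + s / n) - g x‖ₑ) * ‖b s‖ₑ := by
        rw [lintegral_add_compl]
        exact measurableSet_lt measurable_const measurable_norm
    _ ≤ (∫⁻ s in {s : ℝ | R < |s|}, ENNReal.ofReal (2 * G) * ‖b s‖ₑ)
        + ∫⁻ s in {s : ℝ | R < |s|}ᶜ, ENNReal.ofReal (ε / (2 * (Nb + 1))) * ‖b s‖ₑ := by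
        have hms : MeasurableSet {s : ℝ | R < |s|} :=
          measurableSet_lt measurable_const measurable_norm
        refine add_le_add ?_ ?_
        · refine setLIntegral_mono_ae' hms (Eventually.of_forall fun s _ => ?_)
          gcongr
          calc ∫⁻ x, ‖g (x + s / n) - g x‖ₑ ≤ ∫⁻ x, (‖g (x + s / n)‖ₑ + ‖g x‖ₑ) :=
                lintegral_mono fun x => enorm_sub_le
            _ = ENNReal.ofReal (2 * G) := by
                rw [lintegral_add_right _ hgm.enorm, lintegral_add_right_eq_self (fun x => ‖g x‖ₑ) (s / n),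
                  hGe, ← ENNReal.ofReal_add hG0 hG0]
                congr 1; ring
        · refine setLIntegral_mono_ae' hms.compl (Eventually.of_forall fun s hs => ?_)
          gcongr
          refine hρ _ ?_
          have hs' : |s| ≤ R := not_lt.1 hs
          rw [abs_div, abs_of_pos hn0, div_le_iff₀ hn0, hn]
          field_simp
          exact hs'
    _ ≤ ENNReal.ofReal (2 * G) * ENNReal.ofReal (ε / (2 * (2 * G + 1)))
        + ENNReal.ofReal (ε / (2 * (Nb + 1))) * ENNReal.ofReal Nb := by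
        rw [lintegral_const_mul _ hbc.measurable.enorm, lintegral_const_mul _ hbc.measurable.enorm]
        gcongr
        rw [← hNbe]
        exact setLIntegral_le_lintegral _ _
    _ ≤ ENNReal.ofReal ε := by
        rw [← ENNReal.ofReal_mul (by positivity), ← ENNReal.ofReal_mul (by positivity),
          ← ENNReal.ofReal_add (by positivity) (by positivity)]
        refine ENNReal.ofReal_le_ofReal ?_
        have e1 : 2 * G * (ε / (2 * (2 * G + 1))) ≤ ε / 2 := by
          rw [mul_div_assoc', div_le_div_iff₀ (by positivity) (by positivity)]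
          nlinarith
        have e2 : ε / (2 * (Nb + 1)) * Nb ≤ ε / 2 := by
          rw [div_mul_eq_mul_div, div_le_div_iff₀ (by positivity) (by positivity)]
          nlinarith
        linarith

end Pool.Agent.L5helper94.TA
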