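import Pool.Agent.L5helper94.TA.Tile2
import Pool.Agent.L5helper94.TA.Trans
open MeasureTheory Set Filter Topology FourierTransform
open scoped ENNReal Real Convolution ComplexConjugate
open Pool.Agent.W703.TL (Tiles Within HasPeriodicStructure)

namespace Pool.Agent.L5helper94.TA

section
variable {Ω L : Set ℝ} (hΩ : MeasurableSet Ω) (hL : Tiles Ω L) {s0 : ℝ}
  (hsep : ∀ a ∈ L, ∀ b ∈ L, a < b → s0 ≤ b - a)

/-- the local coordinate: for almost every `z`, `phi z = z - a` when `z ∈ Ω + a` -/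
noncomputable def phi (Ω L : Set ℝ) (z : ℝ) : ℂ :=
  ∑' b : L, Ω.indicator (fun t : ℝ => (t : ℂ)) (z - b)

include hL in
theorem phi_hasSum : ∀ᵐ z : ℝ, HasSum (fun b : L => Ω.indicator (fun t : ℝ => (t : ℂ)) (z - b)) (phi Ω L z) ∧
    ∀ a ∈ L, z - a ∈ Ω → phi Ω L z = ((z - a : ℝ) : ℂ) := by
  filter_upwards [hL.2] with z hz
  obtain ⟨a, ⟨ha, ha'⟩, hu⟩ := hz
  have h1 : HasSum (fun b : L => Ω.indicator (fun t : ℝ => (t : ℂ)) (z - b)) ((z - a : ℝ) : ℂ) := by
    have := hasSum_single (f := fun b : L => Ω.indicator (fun t : ℝ => (t : ℂ)) (z - b)) (⟨a, ha⟩ : L)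
      (by
        intro b hb
        refine indicator_of_notMem ?_ _
        intro hmem
        exact hb (Subtype.ext (hu b ⟨b.2, hmem⟩)))
    simp only [indicator_of_mem ha'] at this
    exact this
  refine ⟨?_, ?_⟩
  · unfold phi
    exact h1.summable.hasSum
  · intro b hb hb'
    have := hu b ⟨hb, hb'⟩
    subst this
    unfold phi
    exact h1.tsum_eq

/-- the two-variable difference kernel -/
noncomputable def KK (g : ℝ → ℂ) (y s : ℝ) : ℝ≥0∞ := ‖g y - g (y - s)‖ₑ

theorem KK_meas {g : ℝ → ℂ} (hg : Measurable g) : Measurable (fun p : ℝ × ℝ => KK g p.1 p.2) := by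
  unfold KK
  exact ((hg.comp measurable_fst).sub (hg.comp (measurable_fst.sub measurable_snd))).enorm

include hL hsep in
theorem phi_pointwise {g : ℝ → ℂ} (hgi : Integrable g) (hgΩ : g = Ω.indicator (fun t : ℝ => (t : ℂ)))
    {r : ℝ} (hr : 0 < r) (hr0 : r ≤ s0) :
    ∀ᵐ z : ℝ, ‖phi Ω L z - ∫ t, g t * hh L r (z - t)‖ₑ ≤
      ∑' b : L, ENNReal.ofReal (1 / r) * ∫⁻ s in Ico (0:ℝ) r, KK g (z - b) s := by
  filter_upwards [phi_hasSum hL] with z hz
  have h1 := hz.1
  rw [← hgΩ] at h1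
  have h2 := conv_hasSum hL hsep hr hr0 hgi z
  have h3 := h1.sub h2
  rw [← h3.tsum_eq]
  refine (enorm_tsum_le_tsum_enorm).trans (ENNReal.tsum_le_tsum fun b => ?_)
  have h4 : ∫ w in Ico (b : ℝ) (b + r), g (z - w) = ∫ s in Ico (0:ℝ) r, g (z - b - s) := by
    rw [← integral_indicator measurableSet_Ico, ← integral_indicator measurableSet_Ico,
      ← integral_add_right_eq_self _ (b : ℝ)]
    refine integral_congr_ae (Eventually.of_forall fun s => ?_)
    simp only [indicator, mem_Ico]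
    have : ((b : ℝ) ≤ s + b ∧ s + (b : ℝ) < b + r) ↔ (0 ≤ s ∧ s < r) := by
      constructor <;> rintro ⟨h1, h2⟩ <;> constructor <;> linarith
    simp only [this]
    rw [show z - (s + (b : ℝ)) = z - b - s by ring]
  have hI : IntegrableOn (fun s => g (z - b - s)) (Ico (0:ℝ) r) := (hgi.comp_sub_left (z - b)).integrableOn
  have hC : IntegrableOn (fun _ : ℝ => g (z - b)) (Ico (0:ℝ) r) :=
    integrableOn_const (by simp)
  have h5 : g (z - b) = ((1 / r : ℝ) : ℂ) * ∫ s in Ico (0:ℝ) r, g (z - b) := by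
    rw [setIntegral_const]
    simp only [Measure.real, Real.volume_Ico, sub_zero]
    rw [ENNReal.toReal_ofReal hr.le, Complex.real_smul, ← mul_assoc, ← Complex.ofReal_mul,
      one_div, inv_mul_cancel₀ hr.ne', Complex.ofReal_one, one_mul]
  have h6 : g (z - b) - ((1 / r : ℝ) : ℂ) * ∫ w in Ico (b : ℝ) (b + r), g (z - w) =
      ((1 / r : ℝ) : ℂ) * ∫ s in Ico (0:ℝ) r, (g (z - b) - g (z - b - s)) := by
    rw [h4, integral_sub hC hI, mul_sub, ← h5]
  rw [h6, enorm_mul]
  refine mul_le_mul' (le_of_eq ?_) ?_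
  · rw [← ofReal_norm_eq_enorm, Complex.norm_real, Real.norm_eq_abs, abs_of_pos (by positivity)]
  · exact enorm_integral_le_lintegral_enorm _

include hL hsep in
theorem lemmaD {g : ℝ → ℂ} (hgm : Measurable g) (hgi : Integrable g)
    (hgΩ : g = Ω.indicator (fun t : ℝ => (t : ℂ)))
    {r : ℝ} (hr : 0 < r) (hr0 : r ≤ s0) (ε : ℝ) (hε : 0 ≤ ε)
    (hρ : ∀ s : ℝ, |s| ≤ r → ∫⁻ x, ‖g (x + s) - g x‖ₑ ≤ ENNReal.ofReal ε) (c : ℝ) :
    ∫⁻ z in Ico c (c + s0), ‖phi Ω L z - ∫ t, g t * hh L r (z - t)‖ₑ ≤ ENNReal.ofReal ε := by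
  have : Countable L := hL.1.to_subtype
  have hs0 : 0 < s0 := hr.trans_le hr0
  have hKm := KK_meas hgm
  have hJm : Measurable fun y : ℝ => ∫⁻ s in Ico (0:ℝ) r, KK g y s :=
    hKm.lintegral_prod_right'
  calc ∫⁻ z in Ico c (c + s0), ‖phi Ω L z - ∫ t, g t * hh L r (z - t)‖ₑ
      ≤ ∫⁻ z in Ico c (c + s0), ∑' b : L, ENNReal.ofReal (1 / r) * ∫⁻ s in Ico (0:ℝ) r, KK g (z - b) s :=
        lintegral_mono_ae (ae_restrict_of_ae (phi_pointwise hL hsep hgi hgΩ hr hr0))
    _ = ∑' b : L, ∫⁻ z in Ico c (c + s0), ENNReal.ofReal (1 / r) * ∫⁻ s in Ico (0:ℝ) r, KK g (z - b) s := by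
        rw [lintegral_tsum]
        intro b
        exact ((hJm.comp (measurable_id.sub_const (b : ℝ))).const_mul _).aemeasurable
    _ = ∑' b : L, ENNReal.ofReal (1 / r) * ∫⁻ y in Ico (c - b) (c - b + s0), ∫⁻ s in Ico (0:ℝ) r, KK g y s := by
        congr 1
        ext b
        rw [lintegral_const_mul _ (show Measurable fun z : ℝ => ∫⁻ s in Ico (0:ℝ) r, KK g (z - b) s from
          hJm.comp (measurable_id.sub_const (b : ℝ)))]
        congr 1
        rw [← lintegral_indicator measurableSet_Ico, ← lintegral_indicator measurableSet_Ico,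
          ← lintegral_add_right_eq_self _ (b : ℝ)]
        refine lintegral_congr fun y => ?_
        simp only [indicator, mem_Ico, add_sub_cancel_right]
        have : (c ≤ y + b ∧ y + b < c + s0) ↔ (c - b ≤ y ∧ y < c - b + s0) := by
          constructor <;> rintro ⟨h1, h2⟩ <;> constructor <;> linarith
        simp only [this]
    _ = ENNReal.ofReal (1 / r) * ∫⁻ y in ⋃ b : L, Ico (c - b) (c - b + s0), ∫⁻ s in Ico (0:ℝ) r, KK g y s := by
        rw [ENNReal.tsum_mul_left]
        congr 1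
        rw [lintegral_iUnion (fun b => measurableSet_Ico)]
        intro a b hab
        have key : ∀ a b : L, (a : ℝ) < b →
            Disjoint (Ico (c - a) (c - a + s0)) (Ico (c - b) (c - b + s0)) := by
          intro a b h
          rw [Set.disjoint_left]
          intro x hx hx'
          rw [mem_Ico] at hx hx'
          have := hsep a a.2 b b.2 h
          linarith
        rcases lt_trichotomy (a : ℝ) b with h | h | h
        · exact key a b h
        · exact absurd (Subtype.ext h) hab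
        · exact (key b a h).symm
    _ ≤ ENNReal.ofReal (1 / r) * ∫⁻ y, ∫⁻ s in Ico (0:ℝ) r, KK g y s := by
        gcongr
        exact Measure.restrict_le_self
    _ = ENNReal.ofReal (1 / r) * ∫⁻ s in Ico (0:ℝ) r, ∫⁻ y, KK g y s := by
        rw [lintegral_lintegral_swap hKm.aemeasurable]
    _ ≤ ENNReal.ofReal (1 / r) * ∫⁻ s in Ico (0:ℝ) r, ENNReal.ofReal ε := by
        gcongr ENNReal.ofReal (1 / r) * ?_
        refine setLIntegral_mono measurable_const fun s hs => ?_
        have h1 := hρ s (by rw [abs_of_nonneg hs.1]; exact hs.2.le)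
        refine le_trans (le_of_eq ?_) h1
        rw [← lintegral_add_right_eq_self (fun y => KK g y s) s]
        simp only [KK, add_sub_cancel_right]
    _ = ENNReal.ofReal ε := by
        rw [setLIntegral_const, Real.volume_Ico, sub_zero, mul_comm (ENNReal.ofReal ε), ← mul_assoc,
          ← ENNReal.ofReal_mul (by positivity), one_div, inv_mul_cancel₀ hr.ne', ENNReal.ofReal_one, one_mul]

end

end Pool.Agent.L5helper94.TA
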