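import Pool.Agent.L5helper94.TA.Op
open MeasureTheory Set Filter Topology FourierTransform
open scoped ENNReal Real Convolution ComplexConjugate

namespace Pool.Agent.L5helper94.TA

/-- truncation of a real number to `[-δ, δ]` -/
def clip (δ t : ℝ) : ℝ := max (-δ) (min t δ)

theorem clip_lip (δ a b : ℝ) : |clip δ a - clip δ b| ≤ |a - b| := by
  unfold clip
  rw [max_comm, max_comm (-δ)]
  refine (abs_max_sub_max_le_abs _ _ _).trans ?_
  have := abs_min_sub_min_le_max a δ b δ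
  simpa using this

theorem clip_abs {δ : ℝ} (hδ : 0 ≤ δ) (t : ℝ) : |clip δ t| ≤ δ := by
  unfold clip
  rw [abs_le]
  exact ⟨le_max_left _ _, max_le (by linarith) (min_le_right _ _)⟩

theorem clip_eq {δ t : ℝ} (h : |t| ≤ δ) : clip δ t = t := by
  unfold clip
  rw [abs_le] at h
  rw [min_eq_left h.2, max_eq_right h.1]

/-- the real function `ψ`, as a complex valued one -/
def cx (ψ : ℝ → ℝ) : ℝ → ℂ := fun x => ((ψ x : ℝ) : ℂ)

theorem LCp.clip {ψ : ℝ → ℝ} (h : LCp (cx ψ)) {δ : ℝ} (hδ : 0 ≤ δ) :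
    ∃ K B : ℝ, 0 ≤ K ∧ 0 ≤ B ∧ LC K B (cx ψ) ∧ LC K B (cx fun x => TA.clip δ (ψ x)) := by
  obtain ⟨K, B, hK, hB, h⟩ := h
  refine ⟨K, B, hK, hB, h, ?_, ?_⟩
  · intro x y
    have := h.1 x y
    simp only [cx] at this ⊢
    rw [← Complex.ofReal_sub, Complex.norm_real, Real.norm_eq_abs] at this ⊢
    exact (clip_lip _ _ _).trans this
  · intro x hx
    have := h.2 x hx
    simp only [cx, Complex.ofReal_eq_zero] at this ⊢
    rw [this]
    exact clip_eq (by simpa using hδ)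

theorem LCp.clipc {ψ : ℝ → ℝ} (h : LCp (cx ψ)) {δ : ℝ} (hδ : 0 ≤ δ) :
    LCp (cx fun x => TA.clip δ (ψ x)) := by
  obtain ⟨K, B, hK, hB, -, h⟩ := h.clip hδ
  exact ⟨K, B, hK, hB, h⟩

theorem LCp.soft {ψ : ℝ → ℝ} (h : LCp (cx ψ)) {δ : ℝ} (hδ : 0 ≤ δ) :
    LCp (cx fun x => ψ x - TA.clip δ (ψ x)) := by
  have h1 := h.add ((h.clipc hδ).const_mul (-1))
  have e : (fun x => cx ψ x + (-1) * cx (fun x => TA.clip δ (ψ x)) x)
      = cx fun x => ψ x - TA.clip δ (ψ x) := by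
    funext x
    simp only [cx]
    push_cast
    ring
  rwa [e] at h1

theorem zero_compact {ψ : ℝ → ℝ} (h : LCp (cx ψ)) {δ : ℝ} (hδ : 0 < δ) :
    IsCompact {x : ℝ | δ ≤ |ψ x|} := by
  have hc : Continuous ψ := by
    have := Complex.continuous_re.comp h.cont
    refine this.congr fun x => ?_
    simp [cx]
  obtain ⟨K, B, hK, hB, h⟩ := h
  refine (isCompact_Icc (a := -B) (b := B)).of_isClosed_subset
    (isClosed_le continuous_const hc.abs) fun x hx => ?_
  by_contra hcon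
  have hx' : B < |x| := by
    by_contra hcon'
    exact hcon (mem_Icc.2 (abs_le.1 (not_lt.1 hcon')))
  have := h.2 x hx'
  simp only [cx, Complex.ofReal_eq_zero] at this
  rw [mem_setOf_eq, this, abs_zero] at hx
  linarith

theorem quotient {F : ℝ → ℂ} (L : ℝ) (hL : 0 ≤ L) (hF : ∀ x y, ‖F x - F y‖ ≤ L * |x - y|)
    {ψ : ℝ → ℝ} (h : LCp (cx ψ)) (hz : ∀ ξ, F ξ = 0 → ψ ξ = 0) {δ : ℝ} (hδ : 0 < δ) :
    LCp (fun x => cx (fun x => ψ x - clip δ (ψ x)) x / F x) := by
  have hFc : Continuous F := cont_of_lip hF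
  set s : ℝ → ℂ := cx (fun x => ψ x - clip δ (ψ x)) with hs
  have hs1 := h.soft hδ.le
  rw [← hs] at hs1
  obtain ⟨M, hM0, hM⟩ := hs1.bdd
  obtain ⟨m, hm0, hm⟩ : ∃ m : ℝ, 0 < m ∧ ∀ x, δ ≤ |ψ x| → m ≤ ‖F x‖ := by
    rcases ({x : ℝ | δ ≤ |ψ x|} : Set ℝ).eq_empty_or_nonempty with he | hne
    · exact ⟨1, one_pos, fun x hx => absurd (show x ∈ {x : ℝ | δ ≤ |ψ x|} from hx) (by rw [he]; simp)⟩
    · obtain ⟨x0, hx0, hmin⟩ := (zero_compact h hδ).exists_isMinOn hne (continuous_norm.comp hFc).continuousOn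
      refine ⟨‖F x0‖, ?_, fun x hx => hmin hx⟩
      rw [norm_pos_iff]
      intro h0
      have := hz x0 h0
      rw [mem_setOf_eq, this, abs_zero] at hx0
      linarith
  have hsz : ∀ x, s x ≠ 0 → m ≤ ‖F x‖ := by
    intro x hx
    refine hm x ?_
    by_contra hcon
    apply hx
    simp only [hs, cx, Complex.ofReal_eq_zero]
    rw [clip_eq (not_le.1 hcon).le, sub_self]
  obtain ⟨K, B, hK, hB, hs2⟩ := hs1
  have hfin : ∀ x y, s x = 0 → ‖s x / F x - s y / F y‖ ≤ K / m * |x - y| := by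
    intro x y hx
    by_cases hy : s y = 0
    · rw [hx, hy, zero_div, zero_div, sub_zero, norm_zero]; positivity
    · have h1 := hs2.1 x y
      rw [hx, zero_sub, norm_neg] at h1
      rw [hx, zero_div, zero_sub, norm_neg, norm_div]
      have h2 := hsz y hy
      have h3 : 0 < ‖F y‖ := lt_of_lt_of_le hm0 h2
      calc ‖s y‖ / ‖F y‖ ≤ (K * |x - y|) / m := div_le_div₀ (by positivity) h1 hm0 h2
        _ = K / m * |x - y| := by ring
  refine ⟨M * L / m ^ 2 + K / m, B, by positivity, hB, ?_, ?_⟩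
  · intro x y
    show ‖s x / F x - s y / F y‖ ≤ _
    by_cases hx : s x = 0
    · refine (hfin x y hx).trans ?_
      have : 0 ≤ M * L / m ^ 2 := by positivity
      have := abs_nonneg (x - y)
      gcongr
      linarith
    · by_cases hy : s y = 0
      · rw [norm_sub_rev, abs_sub_comm]
        refine (hfin y x hy).trans ?_
        have : 0 ≤ M * L / m ^ 2 := by positivity
        have := abs_nonneg (y - x)
        gcongr
        linarith
      · have hFx := hsz x hx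
        have hFy := hsz y hy
        have h1 : 0 < ‖F x‖ := lt_of_lt_of_le hm0 hFx
        have h2 : 0 < ‖F y‖ := lt_of_lt_of_le hm0 hFy
        have h3 : F x ≠ 0 := norm_pos_iff.1 h1
        have h4 : F y ≠ 0 := norm_pos_iff.1 h2
        have e : s x / F x - s y / F y = s x * (F y - F x) / (F x * F y) + (s x - s y) / F y := by
          field_simp
          ring
        rw [e]
        refine (norm_add_le _ _).trans ?_
        rw [norm_div, norm_div, norm_mul, norm_mul]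
        have h5 : ‖s x‖ * ‖F y - F x‖ / (‖F x‖ * ‖F y‖) ≤ (M * (L * |x - y|)) / m ^ 2 := by
          refine div_le_div₀ (by positivity) ?_ (by positivity) ?_
          · refine mul_le_mul (hM x) ?_ (norm_nonneg _) hM0.le
            rw [norm_sub_rev]
            exact hF x y
          · rw [sq]; exact mul_le_mul hFx hFy hm0.le h1.le
        have h6 : ‖s x - s y‖ / ‖F y‖ ≤ (K * |x - y|) / m :=
          div_le_div₀ (by positivity) (hs2.1 x y) hm0 hFy
        refine (add_le_add h5 h6).trans (le_of_eq ?_)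
        ring
  · intro x hx
    show s x / F x = 0
    rw [hs2.2 x hx, zero_div]

section
variable {h : ℝ → ℂ} {D : ℝ} (hm : Measurable h) (hD : ∀ x, ‖h x‖ ≤ D)
  {f : ℝ → ℂ} (hf : Integrable f) {c : ℂ} (hc : ∀ x, ∫ t, f t * h (x - t) = c)
  {L : ℝ} (hL : 0 ≤ L) (hF : ∀ x y, ‖𝓕 f x - 𝓕 f y‖ ≤ L * |x - y|)
include hm hD hf hc hL hF

theorem AA_soft {ψ : ℝ → ℝ} (hψ : LCp (cx ψ)) (hz : ∀ ξ, 𝓕 f ξ = 0 → ψ ξ = 0) {δ : ℝ} (hδ : 0 < δ)
    (h0 : 𝓕 f 0 ≠ 0) (x : ℝ) :
    AA h (cx fun x => ψ x - clip δ (ψ x)) x = c * (cx (fun x => ψ x - clip δ (ψ x)) 0 / 𝓕 f 0) := by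
  have hr := quotient L hL hF hψ hz hδ
  have := AA_F hm hD hf hc hr x
  rw [← this]
  congr 1
  funext ξ
  by_cases hξ : 𝓕 f ξ = 0
  · rw [hξ, mul_zero]
    simp only [cx, Complex.ofReal_eq_zero]
    rw [hz ξ hξ, clip_eq (by simpa using hδ.le), sub_self]
  · rw [div_mul_cancel₀ _ hξ]

theorem AA_zero_real {ψ : ℝ → ℝ} (hψ : LCp (cx ψ)) (hz : ∀ ξ, 𝓕 f ξ = 0 → ψ ξ = 0)
    (h0 : 𝓕 f 0 ≠ 0) (x : ℝ) :
    AA h (cx ψ) x = c * (cx ψ 0 / 𝓕 f 0) := by
  have hD0 : 0 ≤ D := (norm_nonneg _).trans (hD 0)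
  obtain ⟨K, B, hK, hB, hk⟩ := id hψ
  set C := 2 * B + K ^ 2 * (2 * B + 2) + 4 with hC
  have hF0 : 0 < ‖𝓕 f 0‖ := norm_pos_iff.2 h0
  have key : ∀ δ : ℝ, 0 < δ → ‖AA h (cx ψ) x - c * (cx ψ 0 / 𝓕 f 0)‖
      ≤ D * (C * Real.sqrt δ) + ‖c‖ * (δ / ‖𝓕 f 0‖) := by
    intro δ hδ
    have hcl := hψ.clipc hδ.le
    have e1 : AA h (cx ψ) x = AA h (cx fun x => ψ x - clip δ (ψ x)) x + AA h (cx fun x => clip δ (ψ x)) x := by
      rw [← AA_add hm hD (hψ.soft hδ.le) hcl]
      congr 1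
      funext ξ
      simp only [cx]
      push_cast
      ring
    rw [e1, AA_soft hm hD hf hc hL hF hψ hz hδ h0]
    have e2 : c * (cx (fun x => ψ x - clip δ (ψ x)) 0 / 𝓕 f 0) + AA h (cx fun x => clip δ (ψ x)) x
        - c * (cx ψ 0 / 𝓕 f 0) = AA h (cx fun x => clip δ (ψ x)) x
        + (-c) * (((clip δ (ψ 0) : ℝ) : ℂ) / 𝓕 f 0) := by
      simp only [cx]
      push_cast
      ring
    rw [e2]
    refine (norm_add_le _ _).trans (add_le_add ?_ ?_)
    · refine (AA_norm hD hcl.intF x).trans ?_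
      refine mul_le_mul_of_nonneg_left ?_ hD0
      have hk2 : LC K B (cx fun x => clip δ (ψ x)) := by
        constructor
        · intro x y
          have := hk.1 x y
          simp only [cx] at this ⊢
          rw [← Complex.ofReal_sub, Complex.norm_real, Real.norm_eq_abs] at this ⊢
          exact (clip_lip _ _ _).trans this
        · intro x hx
          have := hk.2 x hx
          simp only [cx, Complex.ofReal_eq_zero] at this ⊢
          rw [this]
          exact clip_eq (by simpa using hδ.le)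
      exact (l1_bound hB hδ hk2 (fun x => by
        simp only [cx]
        rw [Complex.norm_real, Real.norm_eq_abs]
        exact clip_abs hδ.le _)).2
    · rw [norm_mul, norm_neg, norm_div, Complex.norm_real, Real.norm_eq_abs]
      have := clip_abs hδ.le (ψ 0)
      gcongr
  have hlim : Tendsto (fun δ : ℝ => D * (C * Real.sqrt δ) + ‖c‖ * (δ / ‖𝓕 f 0‖)) (𝓝[>] 0)
      (𝓝 (D * (C * Real.sqrt 0) + ‖c‖ * (0 / ‖𝓕 f 0‖))) := by
    refine Tendsto.mono_left ?_ nhdsWithin_le_nhds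
    refine Continuous.tendsto ?_ 0
    fun_prop
  rw [Real.sqrt_zero, mul_zero, mul_zero, zero_div, mul_zero, add_zero] at hlim
  have h1 : ‖AA h (cx ψ) x - c * (cx ψ 0 / 𝓕 f 0)‖ ≤ 0 :=
    ge_of_tendsto hlim (eventually_mem_nhdsWithin.mono fun δ hδ => key δ hδ)
  exact sub_eq_zero.1 (norm_le_zero_iff.1 h1)

theorem AA_zero_cx {q : ℝ → ℂ} (hq : LCp q) (hz : ∀ ξ, 𝓕 f ξ = 0 → q ξ = 0)
    (h0 : 𝓕 f 0 ≠ 0) (x : ℝ) :
    AA h q x = c * (q 0 / 𝓕 f 0) := by
  have h1 : q = fun x => cx (fun x => (q x).re) x + Complex.I * cx (fun x => (q x).im) x := by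
    funext x
    simp only [cx]
    rw [mul_comm]
    exact (Complex.re_add_im _).symm
  have hre : LCp (cx fun x => (q x).re) := hq.re
  have him : LCp (cx fun x => (q x).im) := hq.im
  have e1 : AA h q x = AA h (cx (fun x => (q x).re)) x + Complex.I * AA h (cx (fun x => (q x).im)) x := by
    conv_lhs => rw [h1]
    rw [AA_add hm hD hre (him.const_mul _), AA_const_mul]
  rw [e1, AA_zero_real hm hD hf hc hL hF hre (fun ξ hξ => by rw [hz ξ hξ]; rfl) h0,
    AA_zero_real hm hD hf hc hL hF him (fun ξ hξ => by rw [hz ξ hξ]; rfl) h0]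
  have e2 : q 0 = cx (fun x => (q x).re) 0 + Complex.I * cx (fun x => (q x).im) 0 := congrFun h1 0
  rw [e2]
  ring

end

end Pool.Agent.L5helper94.TA
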